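import Pool.Agent.Helper96.TF.UDefs
import Pool.Agent.Helper11.TF.Lip

/-!
# Basic facts on the phases
-/

set_option autoImplicit false

namespace Pool.Agent.Helper9.TF

open Complex Filter Topology

/-! ### conjugation -/

lemma cj_even {r : ℕ} (h : Even r) (z : ℂ) : cj r z = z := if_pos h

lemma cj_odd {r : ℕ} (h : ¬ Even r) (z : ℂ) : cj r z = (starRingEnd ℂ) z := if_neg h

lemma cj_succ (r : ℕ) (z : ℂ) : cj (r + 1) z = (starRingEnd ℂ) (cj r z) := by
  unfold cj
  by_cases h : Even r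
  · rw [if_pos h, if_neg (by simpa [Nat.even_add_one] using h)]
  · rw [if_neg h, if_pos (Nat.even_add_one.2 h), Complex.conj_conj]

lemma cj_norm (r : ℕ) (z : ℂ) (x : ℝ) : ‖cj r z - x‖ = ‖z - x‖ := by
  unfold cj
  split_ifs
  · rfl
  · rw [← Complex.norm_conj (z - x), map_sub, Complex.conj_ofReal]

lemma cj_near_y {n : ℕ} {a : ℕ → ℕ} {y t : ℕ → ℂ} (H : Crit n a y t) {r : ℕ} (hr : r < n) (s : ℕ) :
    ‖cj s (y r) - 1 / a r‖ ≤ 3 / (a r) ^ 2 := by
  have h := H.near_y r hr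
  have e : (1 / (a r : ℂ)) = ((1 / (a r : ℝ) : ℝ) : ℂ) := by push_cast; ring
  rw [e] at h ⊢
  rwa [cj_norm]

lemma cj_near_t {n : ℕ} {a : ℕ → ℕ} {y t : ℕ → ℂ} (H : Crit n a y t) {j : ℕ} (hj : j + 1 < n)
    (s : ℕ) : ‖cj s (t j) - 1 / 4‖ ≤ 1 / 200 := by
  have h := H.near_t j hj
  have e : (1 / 4 : ℂ) = ((1 / 4 : ℝ) : ℂ) := by push_cast; ring
  rw [e] at h ⊢
  rwa [cj_norm]

lemma cj_small {n : ℕ} {a : ℕ → ℕ} {y t : ℕ → ℂ} (ha : ∀ i, i < n → 1000 ≤ a i)
    (H : Crit n a y t) {r : ℕ} (hr : r < n) (s : ℕ) : ‖cj s (y r)‖ < 1 / 200 := by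
  have h := cj_near_y H hr s
  have h1 : (1000 : ℝ) ≤ a r := by exact_mod_cast ha r hr
  have h2 : (0 : ℝ) < a r := by linarith
  have h3 : ‖cj s (y r)‖ ≤ ‖cj s (y r) - 1 / a r‖ + ‖(1 : ℂ) / a r‖ := by
    simpa using norm_add_le (cj s (y r) - 1 / a r) ((1 : ℂ) / a r)
  have h4 : ‖(1 : ℂ) / a r‖ = 1 / a r := by simp
  have h5 : (1 : ℝ) / a r ≤ 1 / 1000 := one_div_le_one_div_of_le (by norm_num) h1
  have h6 : (3 : ℝ) / (a r) ^ 2 = 3 * (1 / a r) * (1 / a r) := by field_simp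
  have h7 : (0 : ℝ) ≤ 1 / a r := by positivity
  rw [h4] at h3
  rw [h6] at h
  nlinarith

/-! ### regions -/

lemma near_lt {t : ℂ} (ht : ‖t - 1 / 4‖ ≤ 1 / 200) : ‖t - 1 / 4‖ < 1 / 20 :=
  ht.trans_lt (by norm_num)

lemma small_lt {y : ℂ} (hy : ‖y‖ < 1 / 200) : ‖y‖ < 1 / 20 := hy.trans (by norm_num)

lemma HS_add {y t : ℂ} (hy : ‖y‖ < 1 / 200) (ht : ‖t - 1 / 4‖ ≤ 1 / 200) : t + y ∈ HS :=
  HS_of (reg_add (small_lt hy) (near_lt ht))

lemma HS_sub {y t : ℂ} (hy : ‖y‖ < 1 / 200) (ht : ‖t - 1 / 4‖ ≤ 1 / 200) : t - y ∈ HS :=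
  HS_of (reg_sub (small_lt hy) (near_lt ht))

lemma HS_half {t : ℂ} (ht : ‖t - 1 / 4‖ ≤ 1 / 200) : t - 1 / 2 ∈ HS :=
  HS_of (reg_half (near_lt ht))

lemma HS_conj {u : ℂ} (hu : u ∈ HS) : (starRingEnd ℂ) u ∈ HS := by
  show |((starRingEnd ℂ) u).re| < 1 / 2
  rw [Complex.conj_re]
  exact hu

/-! ### conjugation of `cc` -/

lemma cos_re_pos {u : ℂ} (hu : u ∈ HS) : 0 < (2 * Complex.cos (Real.pi * u)).re := by
  have h := abs_lt.1 (show |u.re| < 1 / 2 from hu)
  have e : (2 * Complex.cos (Real.pi * u)).re =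
      2 * (Real.cos (Real.pi * u.re) * Real.cosh (Real.pi * u.im)) := by
    have e1 : Complex.cos (Real.pi * u) = Complex.cos ((Real.pi * u.re : ℝ) +
        (Real.pi * u.im : ℝ) * I) := by
      congr 1
      apply Complex.ext <;> simp
    have e2 : (Complex.cos (Real.pi * u)).re =
        Real.cos (Real.pi * u.re) * Real.cosh (Real.pi * u.im) := by
      rw [e1, Complex.cos_add_mul_I, ← Complex.ofReal_cos, ← Complex.ofReal_cosh,
        ← Complex.ofReal_sin, ← Complex.ofReal_sinh]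
      simp only [Complex.sub_re, Complex.mul_re, Complex.ofReal_re, Complex.ofReal_im,
        Complex.I_re, Complex.I_im, Complex.mul_im]
      ring
    have e3 : ((2 : ℂ) * Complex.cos (Real.pi * u)).re = 2 * (Complex.cos (Real.pi * u)).re := by
      simp
    rw [e3, e2]
  rw [e]
  have h1 : 0 < Real.cos (Real.pi * u.re) := by
    apply Real.cos_pos_of_mem_Ioo
    constructor <;> nlinarith [h.1, h.2, Real.pi_pos]
  have h2 := Real.cosh_pos (Real.pi * u.im)
  positivity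

lemma cc_conj {u : ℂ} (hu : u ∈ HS) : cc ((starRingEnd ℂ) u) = (starRingEnd ℂ) (cc u) := by
  unfold cc
  have h1 : (2 * Complex.cos (Real.pi * u)) ∈ Complex.slitPlane := Or.inl (cos_re_pos hu)
  rw [← Complex.log_conj _ (Complex.mem_slitPlane_iff_arg.1 h1).1]
  congr 1
  rw [map_mul, ← Complex.cos_conj, map_mul, Complex.conj_ofReal, Complex.conj_ofNat]

lemma gamy_conj {y t : ℂ} (hy : ‖y‖ < 1 / 200) (ht : ‖t - 1 / 4‖ ≤ 1 / 200) :
    gamy ((starRingEnd ℂ) y) ((starRingEnd ℂ) t) = (starRingEnd ℂ) (gamy y t) := by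
  unfold gamy
  rw [map_sub, ← cc_conj (HS_add hy ht), ← cc_conj (HS_sub hy ht), map_add, map_sub]

lemma gamt_conj {y t : ℂ} (hy : ‖y‖ < 1 / 200) (ht : ‖t - 1 / 4‖ ≤ 1 / 200) :
    gamt ((starRingEnd ℂ) y) ((starRingEnd ℂ) t) = (starRingEnd ℂ) (gamt y t) := by
  unfold gamt
  rw [map_sub, map_add, map_mul, ← cc_conj (HS_add hy ht), ← cc_conj (HS_sub hy ht),
    ← cc_conj (HS_half ht), map_add, map_sub, map_sub, map_div₀, map_one, Complex.conj_ofNat]

/-! ### estimates -/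

lemma gamy_bd {y t : ℂ} (hy : ‖y‖ < 1 / 200) (ht : ‖t - 1 / 4‖ ≤ 1 / 200) :
    ‖gamy y t + 2 * Real.pi * y‖ ≤ 1 / 4 * ‖y‖ := by
  have key : Tendsto (fun s : ℝ => ‖gamy y (1 / 4 + s * (t - 1 / 4)) + 2 * Real.pi * y‖) (𝓝[<] 1)
      (𝓝 ‖gamy y t + 2 * Real.pi * y‖) := by
    have h1 : ContinuousAt (fun s : ℝ => ‖gamy y (1 / 4 + s * (t - 1 / 4)) + 2 * Real.pi * y‖)
        1 := by
      have hz : ContinuousAt (fun s : ℝ => (1 / 4 + (s : ℂ) * (t - 1 / 4))) 1 := by fun_prop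
      have e : (1 / 4 + ((1 : ℝ) : ℂ) * (t - 1 / 4)) = t := by push_cast; ring
      have c1 : ContinuousAt (fun s : ℝ => cc ((1 / 4 + (s : ℂ) * (t - 1 / 4)) + y)) 1 := by
        apply ContinuousAt.comp (g := cc) (f := fun s : ℝ => (1 / 4 + (s : ℂ) * (t - 1 / 4)) + y)
        · rw [e]; exact (cc_deriv (HS_add hy ht)).continuousAt
        · exact hz.add continuousAt_const
      have c2 : ContinuousAt (fun s : ℝ => cc ((1 / 4 + (s : ℂ) * (t - 1 / 4)) - y)) 1 := by
        apply ContinuousAt.comp (g := cc) (f := fun s : ℝ => (1 / 4 + (s : ℂ) * (t - 1 / 4)) - y)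
        · rw [e]; exact (cc_deriv (HS_sub hy ht)).continuousAt
        · exact hz.sub continuousAt_const
      unfold gamy
      exact ((c1.sub c2).add continuousAt_const).norm
    have h2 := h1.tendsto
    have e : (1 / 4 + ((1 : ℝ) : ℂ) * (t - 1 / 4)) = t := by push_cast; ring
    rw [e] at h2
    exact h2.mono_left nhdsWithin_le_nhds
  apply le_of_tendsto key
  have hmem : Set.Ioo (0 : ℝ) 1 ∈ 𝓝[<] (1 : ℝ) := Ioo_mem_nhdsLT one_pos
  filter_upwards [hmem] with s hs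
  have hns : ‖(1 / 4 + (s : ℂ) * (t - 1 / 4)) - 1 / 4‖ < 1 / 200 := by
    rw [add_sub_cancel_left, norm_mul, Complex.norm_real, Real.norm_eq_abs, abs_of_pos hs.1]
    rcases eq_or_lt_of_le (norm_nonneg (t - 1 / 4)) with h0 | h0
    · rw [← h0]; norm_num
    · nlinarith [hs.2]
  have := gamy_lip hy (z := 0) (by simp) hns
  rwa [gamy_zero, sub_zero, sub_zero] at this

lemma ps_bd {y t : ℂ} (hy : ‖y‖ < 1 / 200) (ht : ‖t - 1 / 4‖ ≤ 1 / 200) :
    ‖ps y t - I * (Real.pi * y)‖ ≤ 1 / 8 * ‖y‖ := by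
  have h := gamy_bd hy ht
  have e : ps y t - I * (Real.pi * y) = -(I / 2) * (gamy y t + 2 * Real.pi * y) := by
    unfold ps; ring
  rw [e, norm_mul]
  have e2 : ‖-(I / 2)‖ = 1 / 2 := by simp
  rw [e2]
  linarith

lemma exp_ps {y t : ℂ} (hy : ‖y‖ < 1 / 200) (ht : ‖t - 1 / 4‖ ≤ 1 / 200) :
    Complex.exp (2 * I * ps y t) = Complex.cos (Real.pi * (t + y)) / Complex.cos (Real.pi * (t - y)) ∧
    Complex.cos (Real.pi * (t + y)) ≠ 0 ∧ Complex.cos (Real.pi * (t - y)) ≠ 0 := by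
  have h1 : Complex.cos (Real.pi * (t + y)) ≠ 0 := fun h => by
    have := exp_cc (HS_add hy ht)
    rw [h, mul_zero] at this
    exact Complex.exp_ne_zero _ this
  have h2 : Complex.cos (Real.pi * (t - y)) ≠ 0 := fun h => by
    have := exp_cc (HS_sub hy ht)
    rw [h, mul_zero] at this
    exact Complex.exp_ne_zero _ this
  refine ⟨?_, h1, h2⟩
  have e : 2 * I * ps y t = cc (t + y) - cc (t - y) := by
    unfold ps gamy
    linear_combination (-(cc (t + y) - cc (t - y))) * Complex.I_sq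
  rw [e, Complex.exp_sub, exp_cc (HS_add hy ht), exp_cc (HS_sub hy ht)]
  field_simp

/-- the phase at the right end of a region -/
lemma ph_end {n : ℕ} {a : ℕ → ℕ} {y t : ℕ → ℂ} (ha : ∀ i, i < n → 1000 ≤ a i)
    (H : Crit n a y t) {r : ℕ} (hr : r < n) :
    ph y t r (a r) = Real.pi - (if r + 1 = n then 0 else ps (cj r (y r)) (cj r (t r))) := by
  have hs := H.site r hr
  have hL : r ≠ 0 → gamy (cj r (y r)) (cj r (t (r - 1))) = cj r (gamy (y r) (t (r - 1))) := by
    intro h0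
    by_cases he : Even r
    · simp only [cj_even he]
    · simp only [cj_odd he]
      have h1 := cj_small ha H hr 0
      rw [cj_even (by decide)] at h1
      exact gamy_conj h1 (H.near_t (r - 1) (by omega))
  have hR : r + 1 ≠ n → gamy (cj r (y r)) (cj r (t r)) = cj r (gamy (y r) (t r)) := by
    intro h0
    by_cases he : Even r
    · simp only [cj_even he]
    · simp only [cj_odd he]
      have h1 := cj_small ha H hr 0
      rw [cj_even (by decide)] at h1
      exact gamy_conj h1 (H.near_t r (by omega))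
  have key : 2 * Real.pi * I * (a r * cj r (y r) - 1) +
      (if r = 0 then 0 else gamy (cj r (y r)) (cj r (t (r - 1)))) +
      (if r + 1 = n then 0 else gamy (cj r (y r)) (cj r (t r))) = 0 := by
    have k1 : (if r = 0 then 0 else gamy (cj r (y r)) (cj r (t (r - 1)))) =
        cj r (if r = 0 then 0 else gamy (y r) (t (r - 1))) := by
      split_ifs with h0
      · unfold cj; split_ifs <;> simp
      · exact hL h0
    have k2 : (if r + 1 = n then 0 else gamy (cj r (y r)) (cj r (t r))) =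
        cj r (if r + 1 = n then 0 else gamy (y r) (t r)) := by
      split_ifs with h0
      · unfold cj; split_ifs <;> simp
      · exact hR h0
    rw [k1, k2]
    by_cases he : Even r
    · simp only [cj_even he]
      rw [he.neg_one_pow, one_mul] at hs
      exact hs
    · simp only [cj_odd he]
      rw [(Nat.not_even_iff_odd.1 he).neg_one_pow] at hs
      have h3 := congrArg (starRingEnd ℂ) hs
      rw [map_add, map_add, map_zero] at h3
      have h4 : (starRingEnd ℂ) (-1 * (2 * Real.pi * I * (a r * y r - 1))) =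
          2 * Real.pi * I * (a r * (starRingEnd ℂ) (y r) - 1) := by
        simp only [map_mul, map_neg, map_sub, map_one, Complex.conj_ofReal, Complex.conj_I,
          Complex.conj_natCast, Complex.conj_ofNat]
        ring
      rw [h4] at h3
      exact h3
  unfold ph
  have e1 : (if r = 0 then (0 : ℂ) else ps (cj r (y r)) (cj r (t (r - 1)))) = -(I / 2) *
      (if r = 0 then 0 else gamy (cj r (y r)) (cj r (t (r - 1)))) := by
    split_ifs
    · simp
    · rfl
  have e2 : (if r + 1 = n then (0 : ℂ) else ps (cj r (y r)) (cj r (t r))) = -(I / 2) *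
      (if r + 1 = n then 0 else gamy (cj r (y r)) (cj r (t r))) := by
    split_ifs
    · simp
    · rfl
  rw [e1, e2]
  linear_combination (-(I / 2)) * key + (Real.pi * (a r * cj r (y r) - 1)) * Complex.I_sq

end Pool.Agent.Helper9.TF
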