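import Pool.Agent.Helper5.TB.BW
import Pool.Agent.Helper9.TF.StepDefs

/-!
# Definitions for the volume functional of the two-bridge links
-/

namespace Pool.Agent.Helper9.TF

open Complex

/-- contribution of the kernel variable `t` and the site variable `y` to the critical value -/
noncomputable def GG (y t : ℂ) : ℝ :=
  Pool.Agent.Helper5.TB.BW (-Complex.exp (-(2 * Real.pi * I * (t + y)))) +
    Pool.Agent.Helper5.TB.BW (-Complex.exp (-(2 * Real.pi * I * (t - y)))) +
    2 * Pool.Agent.Helper5.TB.BW (Complex.exp (2 * Real.pi * I * t))

end Pool.Agent.Helper9.TF
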