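import Pool.Agent.Helper96.TF.Pos

/-!
# Positivity of the shapes inside the regions
-/

set_option autoImplicit false

namespace Pool.Agent.Helper96.TF

open Complex
open Pool.Agent.Helper9.TF

/-- the real inequalities at the hinge end -/
lemma core_hinge {X E A d eR eI k : ℝ} (hd : d = 1 ∨ d = 2) (hX : 0 < X) (hX1 : X ≤ 1 / 300)
    (hA : 1000 ≤ A) (hE1 : 23 / 24 * d * X ≤ A * E) (hE2 : A * E ≤ 25 / 24 * d * X)
    (hAX : |A * X - Real.pi| ≤ 1 / 1000) (hR : |eR| ≤ X / 24) (hI : |eI| ≤ X / 24) (hk : 1 ≤ k)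
    (hx : E + eR + k * X ≤ Real.pi / 2) :
    0 < E ∧ 0 < E + eR + k * X ∧
    ((0 ≤ X + eI - k * E ∧ (X + eI - k * E) * E < (E + eR + k * X) * X) ∨
      (X + eI - k * E < 0 ∧ Real.pi / 4 ≤ E + eR + k * X ∧
        -(X + eI - k * E) * X * (101 / 100) < 99 / 100 * E)) := by
  have hpi := Real.pi_gt_d2
  have hpi2 := Real.pi_lt_d2
  have hd1 : 1 ≤ d := by rcases hd with h | h <;> rw [h] <;> norm_num
  have hd2 : d ≤ 2 := by rcases hd with h | h <;> rw [h]; norm_num
  have hA0 : 0 < A := by linarith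
  have hE0 : 0 < E := by
    have : 0 < A * E := by nlinarith [mul_pos (show (0 : ℝ) < d by linarith) hX]
    by_contra hc
    push Not at hc
    nlinarith
  rw [abs_le] at hAX hR hI
  have hEX : E ≤ X / 400 := by
    have h1 : A * E ≤ 25 / 12 * X := by nlinarith
    by_contra hc
    push Not at hc
    have : 1000 * (X / 400) < A * E := by nlinarith
    linarith
  have hx0 : 23 / 24 * X ≤ E + eR + k * X := by nlinarith
  refine ⟨hE0, by linarith, ?_⟩
  rcases le_or_gt 0 (X + eI - k * E) with hb | hb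
  · left
    refine ⟨hb, ?_⟩
    have h1 : X + eI - k * E ≤ 25 / 24 * X := by nlinarith
    have h2 : (X + eI - k * E) * E ≤ (25 / 24 * X) * (X / 400) := by gcongr
    have h3 : (23 / 24 * X) * X ≤ (E + eR + k * X) * X := by gcongr
    nlinarith
  · right
    have hkX : k * X ≤ Real.pi / 2 + X / 24 := by linarith
    have hkE : k * (A * E) ≤ 25 / 24 * d * (k * X) := by nlinarith
    have hAb : A * (X + eI - k * E) = A * X + A * eI - k * (A * E) := by ring
    have hAeI : -(A * X / 24) ≤ A * eI := by nlinarith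
    have hneg : A * (X + eI - k * E) < 0 := mul_neg_of_pos_of_neg hA0 hb
    have hd' : d = 2 := by
      rcases hd with h | h
      · exfalso
        subst h
        rw [hAb] at hneg
        nlinarith
      · exact h
    subst hd'
    have hlow : -(27 / 100) ≤ A * (X + eI - k * E) := by
      rw [hAb]
      nlinarith
    refine ⟨hb, ?_, ?_⟩
    · -- x ≥ π / 4
      have h1 : 23 / 24 * (A * X) < k * (A * E) := by
        have : X - X / 24 < k * E := by linarith
        nlinarith
      have h2 : 23 / 24 * (A * X) < 25 / 12 * (k * X) := by nlinarith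
      have h3 : 7 / 5 ≤ k * X := by nlinarith
      linarith
    · have h1 : A * (-(X + eI - k * E) * X * (101 / 100)) ≤ 27 / 100 * X * (101 / 100) := by
        have : A * (-(X + eI - k * E) * X * (101 / 100)) =
            -(A * (X + eI - k * E)) * X * (101 / 100) := by ring
        rw [this]
        have : -(A * (X + eI - k * E)) ≤ 27 / 100 := by linarith
        gcongr
      have h2 : A * (99 / 100 * E) = 99 / 100 * (A * E) := by ring
      have h3 : A * (-(X + eI - k * E) * X * (101 / 100)) < A * (99 / 100 * E) := by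
        rw [h2]
        nlinarith
      exact lt_of_mul_lt_mul_left h3 hA0.le

variable {n : ℕ} {a : ℕ → ℕ} {y t : ℕ → ℂ}

/-- the data of one region -/
lemma region_data (hn : 2 ≤ n) (ha : ∀ i, i < n → 1000 ≤ a i) (H : Crit n a y t) {r : ℕ}
    (hr : r < n) : ∃ (d : ℝ) (θ : ℂ), θ = Real.pi * cj r (y r) ∧ (d = 1 ∨ d = 2) ∧ 0 < θ.re ∧
      θ.re ≤ 1 / 300 ∧ 23 / 24 * d * θ.re ≤ a r * -θ.im ∧ a r * -θ.im ≤ 25 / 24 * d * θ.re ∧
      |a r * θ.re - Real.pi| ≤ 1 / 1000 ∧
      ∀ τ : ℂ, ‖τ - 1 / 4‖ ≤ 1 / 200 → ∃ e : ℂ, ps (cj r (y r)) τ = I * θ + e ∧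
        |e.re| ≤ θ.re / 24 ∧ |e.im| ≤ θ.re / 24 := by
  have hA : (1000 : ℝ) ≤ a r := by exact_mod_cast ha r hr
  have hA0 : (0 : ℝ) < a r := by linarith
  have hpi := Real.pi_gt_d2
  have hpi2 := Real.pi_lt_d2
  have hny := cj_near_y H hr r
  have hsm := cj_small ha H hr r
  have hend := ph_end ha H hr
  unfold ph at hend
  generalize hη : cj r (y r) = η at *
  obtain ⟨q, hq⟩ : ∃ q : ℝ, q = 1 / a r := ⟨_, rfl⟩
  have hq0 : 0 < q := by rw [hq]; positivity
  have hq1 : q ≤ 1 / 1000 := by rw [hq]; exact one_div_le_one_div_of_le (by norm_num) hA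
  have haq : a r * q = 1 := by rw [hq]; field_simp
  have e1 : (3 : ℝ) / (a r) ^ 2 = 3 * q ^ 2 := by rw [hq]; field_simp
  have e2 : (1 : ℂ) / a r = ((q : ℝ) : ℂ) := by rw [hq]; push_cast; ring
  rw [e1, e2] at hny
  have n1 := (Complex.abs_re_le_norm _).trans hny
  have n2 := (Complex.abs_im_le_norm _).trans hny
  rw [Complex.sub_re, Complex.ofReal_re, abs_le] at n1
  rw [Complex.sub_im, Complex.ofReal_im, sub_zero, abs_le] at n2
  have hq3 : 3 * q ^ 2 ≤ 3 / 1000 * q := by nlinarith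
  have hξ1 : 997 / 1000 * q ≤ η.re := by linarith
  have hξ2 : η.re ≤ 1003 / 1000 * q := by linarith
  have hnη : ‖η‖ ≤ Real.pi * η.re / 3 := by
    have h1 : ‖η‖ ≤ |η.re| + |η.im| := Complex.norm_le_abs_re_add_abs_im η
    have h2 : |η.im| ≤ 3 / 1000 * q := abs_le.2 ⟨by linarith, by linarith⟩
    have h3 : |η.re| = η.re := abs_of_pos (by nlinarith)
    rw [h3] at h1
    nlinarith
  have hθre : ((Real.pi : ℂ) * η).re = Real.pi * η.re := by simp
  have hθim : ((Real.pi : ℂ) * η).im = Real.pi * η.im := by simp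
  have hps : ∀ τ : ℂ, ‖τ - 1 / 4‖ ≤ 1 / 200 → ∃ e : ℂ, ps η τ = I * (Real.pi * η) + e ∧
        |e.re| ≤ ((Real.pi : ℂ) * η).re / 24 ∧ |e.im| ≤ ((Real.pi : ℂ) * η).re / 24 := by
    intro τ hτ
    have h1 := ps_bd hsm hτ
    refine ⟨ps η τ - I * (Real.pi * η), by ring, ?_, ?_⟩
    · rw [hθre]
      have := (Complex.abs_re_le_norm _).trans h1
      linarith
    · rw [hθre]
      have := (Complex.abs_im_le_norm _).trans h1
      linarith
  have hXpos : 0 < ((Real.pi : ℂ) * η).re := by rw [hθre]; nlinarith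
  have hX1 : ((Real.pi : ℂ) * η).re ≤ 1 / 300 := by rw [hθre]; nlinarith
  have hIre : (I * ((Real.pi : ℂ) * η)).re = -((Real.pi : ℂ) * η).im := by simp
  have hIim : (I * ((Real.pi : ℂ) * η)).im = ((Real.pi : ℂ) * η).re := by simp
  have hkre : ∀ k : ℕ, ((k : ℂ) * ((Real.pi : ℂ) * η)).re = k * ((Real.pi : ℂ) * η).re := by
    intro k; simp
  have hkim : ∀ k : ℕ, ((k : ℂ) * ((Real.pi : ℂ) * η)).im = k * ((Real.pi : ℂ) * η).im := by
    intro k; simp
  have hAξ : |a r * ((Real.pi : ℂ) * η).re - Real.pi| ≤ 1 / 100 := by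
    rw [hθre, abs_le]
    have : (a r : ℝ) * (Real.pi * η.re) = Real.pi * (a r * η.re) := by ring
    rw [this]
    constructor <;> nlinarith
  have hdre : ∀ d : ℝ, ((d : ℂ) * (I * ((Real.pi : ℂ) * η))).re =
      d * -((Real.pi : ℂ) * η).im := by
    intro d; rw [Complex.re_ofReal_mul, hIre]
  have hdim : ∀ d : ℝ, ((d : ℂ) * (I * ((Real.pi : ℂ) * η))).im =
      d * ((Real.pi : ℂ) * η).re := by
    intro d; rw [Complex.im_ofReal_mul, hIim]
  -- the equation `a θ + d i θ + E = π`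
  have key : ∃ (d : ℝ) (E : ℂ), (d = 1 ∨ d = 2) ∧
      a r * ((Real.pi : ℂ) * η) + d * (I * ((Real.pi : ℂ) * η)) + E = Real.pi ∧
      |E.re| ≤ d * (((Real.pi : ℂ) * η).re / 24) ∧ |E.im| ≤ d * (((Real.pi : ℂ) * η).re / 24) := by
    by_cases h0 : r = 0
    · obtain ⟨e, he, he1, he2⟩ := hps (cj r (t r)) (cj_near_t H (by omega) r)
      rw [if_pos h0, if_neg (by omega), he] at hend
      refine ⟨1, e, Or.inl rfl, ?_, ?_, ?_⟩
      · push_cast
        linear_combination hend
      · linarith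
      · linarith
    · by_cases h1 : r + 1 = n
      · obtain ⟨e, he, he1, he2⟩ := hps (cj r (t (r - 1))) (cj_near_t H (by omega) r)
        rw [if_neg h0, if_pos h1, he] at hend
        refine ⟨1, e, Or.inl rfl, ?_, ?_, ?_⟩
        · push_cast
          linear_combination hend
        · linarith
        · linarith
      · obtain ⟨e, he, he1, he2⟩ := hps (cj r (t (r - 1))) (cj_near_t H (by omega) r)
        obtain ⟨f, hf, hf1, hf2⟩ := hps (cj r (t r)) (cj_near_t H (by omega) r)
        rw [if_neg h0, if_neg h1, he, hf] at hend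
        refine ⟨2, e + f, Or.inr rfl, ?_, ?_, ?_⟩
        · push_cast
          linear_combination hend
        · rw [Complex.add_re]
          have := abs_add_le e.re f.re
          linarith
        · rw [Complex.add_im]
          have := abs_add_le e.im f.im
          linarith
  obtain ⟨d, E, hd, hE, hEr, hEi⟩ := key
  refine ⟨d, _, rfl, hd, hXpos, hX1, ?_, ?_, ?_, hps⟩
  all_goals
    have kr := congrArg Complex.re hE
    have ki := congrArg Complex.im hE
    rw [Complex.add_re, Complex.add_re, hkre, hdre, Complex.ofReal_re] at kr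
    rw [Complex.add_im, Complex.add_im, hkim, hdim, Complex.ofReal_im] at ki
    generalize ((Real.pi : ℂ) * η).re = X at *
    generalize ((Real.pi : ℂ) * η).im = Y at *
    rw [abs_le] at hEr hEi
    have hd2 : d ≤ 2 := by rcases hd with h | h <;> rw [h]; norm_num
    have hd1 : 1 ≤ d := by rcases hd with h | h <;> rw [h] <;> norm_num
  · linarith
  · linarith
  · have hdX : d * X ≤ 2 * X := mul_le_mul_of_nonneg_right hd2 hXpos.le
    have hdX1 : 1 * X ≤ d * X := mul_le_mul_of_nonneg_right hd1 hXpos.le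
    have h2 : 0 < -Y := by
      by_contra hc
      push Not at hc
      have : a r * -Y ≤ 0 := mul_nonpos_of_nonneg_of_nonpos hA0.le hc
      linarith
    have h1 : -Y ≤ X / 400 := by
      have h1 : a r * -Y ≤ 25 / 12 * X := by linarith
      have h3 : 1000 * -Y ≤ a r * -Y := mul_le_mul_of_nonneg_right hA h2.le
      linarith
    have h4 : d * -Y ≤ 2 * (X / 400) := by
      calc d * -Y ≤ 2 * -Y := mul_le_mul_of_nonneg_right hd2 h2.le
        _ ≤ 2 * (X / 400) := by linarith
    have h5 : 0 ≤ d * -Y := by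
      apply mul_nonneg _ h2.le
      linarith
    rw [abs_le]
    constructor <;> linarith

/-- the right end of the region, in terms of the left end -/
lemma ph_sub (ha : ∀ i, i < n → 1000 ≤ a i) (H : Crit n a y t) {r : ℕ} (hr : r < n) {k : ℕ}
    (hk : k ≤ a r) : Real.pi - ph y t r k =
      (if r + 1 = n then 0 else ps (cj r (y r)) (cj r (t r))) +
        ((a r - k : ℕ) : ℂ) * (Real.pi * cj r (y r)) := by
  have hend := ph_end ha H hr
  unfold ph at hend ⊢
  rw [Nat.cast_sub hk]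
  linear_combination -hend

theorem US_pos_1000 (hn : 2 ≤ n) (ha : ∀ i, i < n → 1000 ≤ a i) (H : Crit n a y t) {r : ℕ}
    (hr : r < n) : (0 < (cj r (y r)).re ∧ (cj r (y r)).im < 0) ∧
      ∀ k, 1 ≤ k → k < a r → (r = 0 → 2 ≤ k) → (r + 1 = n → k + 2 ≤ a r) →
        0 < (US y t r k).im := by
  obtain ⟨d, θ, hθ, hd, hX, hX1, hE1, hE2, hAX, hps⟩ := region_data hn ha H hr
  have hA : (1000 : ℝ) ≤ a r := by exact_mod_cast ha r hr
  have hA0 : (0 : ℝ) < a r := by linarith
  have hpi := Real.pi_gt_three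
  have hd1 : 1 ≤ d := by rcases hd with h | h <;> rw [h]; norm_num
  have hd2 : d ≤ 2 := by rcases hd with h | h <;> rw [h]; norm_num
  have hdX : d * θ.re ≤ 2 * θ.re := mul_le_mul_of_nonneg_right hd2 hX.le
  have hdX1 : 1 * θ.re ≤ d * θ.re := mul_le_mul_of_nonneg_right hd1 hX.le
  have hY : 0 < -θ.im := by
    by_contra hc
    push Not at hc
    have : a r * -θ.im ≤ 0 := mul_nonpos_of_nonneg_of_nonpos hA0.le hc
    linarith
  have hY2 : -θ.im ≤ 1 / 100 := by
    have h3 : 1000 * -θ.im ≤ a r * -θ.im := mul_le_mul_of_nonneg_right hA hY.le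
    linarith
  have hηre : 0 < (cj r (y r)).re := by
    have : θ.re = Real.pi * (cj r (y r)).re := by rw [hθ]; simp
    rw [this] at hX
    exact (mul_pos_iff_of_pos_left Real.pi_pos).1 hX
  have hηim : (cj r (y r)).im < 0 := by
    have : θ.im = Real.pi * (cj r (y r)).im := by rw [hθ]; simp
    rw [this, ← mul_neg] at hY
    have := (mul_pos_iff_of_pos_left Real.pi_pos).1 hY
    linarith
  refine ⟨⟨hηre, hηim⟩, ?_⟩
  -- the hinge end
  have hinge : ∀ (τ : ℂ) (k : ℕ), ‖τ - 1 / 4‖ ≤ 1 / 200 → 1 ≤ k →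
      (ps (cj r (y r)) τ + k * θ).re ≤ Real.pi / 2 →
      0 < ((Complex.sin (ps (cj r (y r)) τ + k * θ) / Complex.sin θ) ^ 2).im := by
    intro τ k hτ hk hle
    obtain ⟨e, he, he1, he2⟩ := hps τ hτ
    have hk' : (1 : ℝ) ≤ k := by exact_mod_cast hk
    have r1 : (ps (cj r (y r)) τ + k * θ).re = -θ.im + e.re + k * θ.re := by
      rw [he]; simp
    have r2 : (ps (cj r (y r)) τ + k * θ).im = θ.re + e.im - k * -θ.im := by
      rw [he]; simp
    rw [r1] at hle
    obtain ⟨-, c2, c3⟩ := core_hinge hd hX hX1 hA hE1 hE2 hAX he1 he2 hk' hle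
    rw [← r1] at c2 hle
    rcases c3 with ⟨c4, c5⟩ | ⟨c4, c5, c6⟩
    · rw [← r2] at c4 c5
      rw [← r1] at c5
      exact pos_hinge1 hX (by linarith) (by linarith) c2 hle c4 c5
    · rw [← r2] at c4 c6
      rw [← r1] at c5
      exact pos_hinge2 hX (by linarith) (by linarith) hY2 c5 hle c4 c6
  have outer : ∀ k : ℕ, 2 ≤ k → ((k : ℂ) * θ).re ≤ Real.pi / 2 →
      0 < ((Complex.sin (k * θ) / Complex.sin θ) ^ 2).im := by
    intro k hk hle
    have : ((k : ℂ) * θ).re = k * θ.re := by simp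
    rw [this] at hle
    exact pos_outer hX (by linarith) hk hle
  intro k hk1 hk2 hr0 hrn
  rcases le_or_gt (ph y t r k).re (Real.pi / 2) with hc | hc
  · unfold US
    rw [← hθ]
    unfold ph at hc ⊢
    rw [← hθ] at hc ⊢
    by_cases h0 : r = 0
    · rw [if_pos h0, zero_add] at hc ⊢
      exact outer k (hr0 h0) hc
    · rw [if_neg h0] at hc ⊢
      exact hinge _ k (cj_near_t H (by omega) r) hk1 hc
  · have hsub := ph_sub ha H hr hk2.le
    have hle : (Real.pi - ph y t r k : ℂ).re ≤ Real.pi / 2 := by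
      rw [Complex.sub_re, Complex.ofReal_re]
      linarith
    unfold US
    rw [← Complex.sin_pi_sub, ← hθ]
    rw [← hθ] at hsub
    rw [hsub] at hle ⊢
    by_cases h0 : r + 1 = n
    · rw [if_pos h0, zero_add] at hle ⊢
      exact outer (a r - k) (by have := hrn h0; omega) hle
    · rw [if_neg h0] at hle ⊢
      exact hinge _ (a r - k) (cj_near_t H (by omega) r) (by omega) hle

end Pool.Agent.Helper96.TF

namespace Pool.Agent.Helper9.TF

theorem US_pos : ∃ R : ℕ, ∀ n : ℕ, 2 ≤ n → ∀ a : ℕ → ℕ, (∀ i, i < n → R ≤ a i) →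
    ∀ y t : ℕ → ℂ, Crit n a y t → ∀ r, r < n →
      (0 < (cj r (y r)).re ∧ (cj r (y r)).im < 0) ∧
      ∀ k, 1 ≤ k → k < a r → (r = 0 → 2 ≤ k) → (r + 1 = n → k + 2 ≤ a r) →
        0 < (US y t r k).im :=
  ⟨1000, fun _ hn _ ha _ _ H _ hr => Pool.Agent.Helper96.TF.US_pos_1000 hn ha H hr⟩

end Pool.Agent.Helper9.TF
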