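import Pool.Agent.Helper96.TF.Asm
import Pool.Agent.Helper96.TF.PosMain
import Pool.Agent.Helper66.TF.EVre
import Pool.Agent.Helper11.TF.USum

/-!
# The volume functional of a two-bridge link and the critical value
-/

set_option autoImplicit false


namespace Pool.Agent.Helper9.TF

open Pool.Agent.Helper96.TF

theorem gf_general : ∃ R : ℕ, ∀ n : ℕ, 2 ≤ n → ∀ a : ℕ → ℕ, (∀ i, i < n → R ≤ a i) →
    ∀ y t : ℕ → ℂ, Crit n a y t → ∃ w : ℕ → ℝ, Adm n a w ∧
      (∀ i, 2 ≤ i → i ≤ crossings n a - 2 → 0 < gx n a w i ∧ 0 < gy n a w i ∧ 0 < Real.pi - w i) ∧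
      (∀ w', Adm n a w' → gvol n a w' ≤ gvol n a w) ∧
      gvol n a w = 2 * Real.pi * (EV n a y t).re := by
  obtain ⟨R, hR⟩ := US_pos
  refine ⟨max R 1000, fun n hn a ha y t H => ?_⟩
  have ha1 : ∀ i, i < n → 1000 ≤ a i := fun i hi => le_trans (le_max_right _ _) (ha i hi)
  have hp := hR n hn a (fun i hi => le_trans (le_max_left _ _) (ha i hi)) y t H
  have hne : ∀ r, r < n → ∀ k, 1 ≤ k → k < a r → US y t r k ≠ 0 := by
    intro r hr k h1 h2 h0
    by_cases c1 : r = 0 ∧ k = 1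
    · obtain ⟨rfl, rfl⟩ := c1
      rw [US_first ha1 H (by omega)] at h0
      exact one_ne_zero h0
    by_cases c2 : r + 1 = n ∧ k = a r - 1
    · obtain ⟨c3, rfl⟩ := c2
      rw [(US_last ha1 H c3).1] at h0
      exact one_ne_zero h0
    have := (hp r hr).2 k h1 h2 (fun h => by
      by_contra h3
      exact c1 ⟨h, by omega⟩) (fun h => by
      by_contra h3
      exact c2 ⟨h, by omega⟩)
    rw [h0] at this
    simp at this
  exact gf_asm hn ha1 H hp (fun r hr => US_sum hn ha1 H hr (hne r hr)) (EV_re n a y t hn ha1 H)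

end Pool.Agent.Helper9.TF
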