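import Mathlib
import Pool.Agent.Helper96.TB.E2s
import Pool.Agent.Helper96.TB.E2d
import Pool.Agent.Helper9.TF.GFDefs

/-!
# Chains of shapes and the maximum of the volume functional
-/

set_option autoImplicit false

namespace Pool.Agent.Helper96.TF

open Real Complex
open Pool.Agent.Helper9.TB (Lob)
open Pool.Agent.Helper9.TF (hinges crossings gx gy Adm gvol)
open Pool.Agent.Helper5.TB (BW BW_eq_angles BW_inv)
open Pool.Agent.Helper96.TB (arg_mem tri)

variable {n : ℕ} {a : ℕ → ℕ}

/-- the shape seen from the right side -/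
noncomputable def uh (n : ℕ) (a : ℕ → ℕ) (u : ℕ → ℂ) (i : ℕ) : ℂ :=
  open Classical in if i ∈ hinges n a then ((starRingEnd ℂ) (u i))⁻¹ else u i

/-- A chain of shapes. -/
structure Chain (n : ℕ) (a : ℕ → ℕ) (u : ℕ → ℂ) : Prop where
  c4 : 4 ≤ crossings n a
  first : u 1 = 1
  last : u (crossings n a - 1) = 1
  one_not : 1 ∉ hinges n a
  hrange : ∀ i ∈ hinges n a, 2 ≤ i ∧ i ≤ crossings n a - 2
  pos : ∀ i, 2 ≤ i → i ≤ crossings n a - 2 → 0 < (u i).im
  fan : ∀ i, 2 ≤ i → i ≤ crossings n a - 2 → i ∉ hinges n a →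
    (1 - u i) ^ 2 = uh n a u (i - 1) * u (i + 1)
  hinge : ∀ i ∈ hinges n a,
    (1 - u i) ^ 2 = uh n a u (i - 1) * (-(u i * (starRingEnd ℂ) (u (i + 1))))
  hre : ∀ i ∈ hinges n a, (u i).re ≤ 1

/-- the pleating angles -/
noncomputable def wc (u : ℕ → ℂ) (i : ℕ) : ℝ := π - arg (u i)

variable {u : ℕ → ℂ}

lemma Chain.arg_range (C : Chain n a u) {i : ℕ} (h1 : 1 ≤ i) (h2 : i ≤ crossings n a - 1) :
    0 ≤ arg (u i) ∧ arg (u i) < π := by
  have hpi := Real.pi_pos
  rcases eq_or_lt_of_le h1 with rfl | h3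
  · rw [C.first, Complex.arg_one]; exact ⟨le_rfl, hpi⟩
  rcases eq_or_lt_of_le h2 with rfl | h4
  · rw [C.last, Complex.arg_one]; exact ⟨le_rfl, hpi⟩
  obtain ⟨h5, h6⟩ := arg_mem (C.pos i (by omega) (by omega))
  exact ⟨h5.le, h6⟩

lemma Chain.ne_zero (C : Chain n a u) {i : ℕ} (h1 : 1 ≤ i) (h2 : i ≤ crossings n a - 1) :
    u i ≠ 0 := by
  rcases eq_or_lt_of_le h1 with rfl | h3
  · rw [C.first]; exact one_ne_zero
  rcases eq_or_lt_of_le h2 with rfl | h4
  · rw [C.last]; exact one_ne_zero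
  have := C.pos i (by omega) (by omega)
  intro h0
  rw [h0] at this
  simp at this

lemma arg_uh (C : Chain n a u) {i : ℕ} : arg (uh n a u i) = arg (u i) := by
  unfold uh
  split_ifs with h
  · have := C.pos i (C.hrange i h).1 (C.hrange i h).2
    rw [← map_inv₀, Complex.arg_conj, Complex.arg_inv]
    have h2 := (arg_mem this).2.ne
    have h3 := (arg_mem this).1
    rw [if_neg h2]
    have hpi := Real.pi_pos
    rw [if_neg (by linarith)]
    ring
  · rfl

lemma uh_ne (C : Chain n a u) {i : ℕ} (h1 : 1 ≤ i) (h2 : i ≤ crossings n a - 1) :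
    uh n a u i ≠ 0 := by
  unfold uh
  split_ifs with h
  · exact inv_ne_zero ((map_ne_zero _).2 (C.ne_zero h1 h2))
  · exact C.ne_zero h1 h2

lemma one_sub_ne {z : ℂ} (hz : 0 < z.im) : 1 - z ≠ 0 := by
  intro h
  have : z = 1 := by linear_combination -h
  rw [this] at hz
  simp at hz

lemma gx_wc (C : Chain n a u) {i : ℕ} (h2 : 2 ≤ i) (hc : i ≤ crossings n a - 2) :
    gx n a (wc u) i = arg (1 - u i)⁻¹ := by
  have hpi := Real.pi_pos
  have c4 := C.c4
  have hz := C.pos i h2 hc
  obtain ⟨a0, b0, c0, hsum, -, -⟩ := tri hz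
  have hb : arg (1 - u i)⁻¹ < π := by linarith
  have z1 := one_sub_ne hz
  have hm := C.arg_range (i := i - 1) (by omega) (by omega)
  have hp := C.arg_range (i := i + 1) (by omega) (by omega)
  have nm := uh_ne C (i := i - 1) (by omega) (by omega)
  have np := C.ne_zero (i := i + 1) (by omega) (by omega)
  have ni := C.ne_zero (i := i) (by omega) (by omega)
  have e3 : (arg (1 - u i)⁻¹ : Real.Angle) = - (arg (1 - u i) : Real.Angle) :=
    Complex.arg_inv_coe_angle _
  unfold gx
  split_ifs with hi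
  · have hf := C.hinge i hi
    have hre := C.hre i hi
    have npc : (starRingEnd ℂ) (u (i + 1)) ≠ 0 := (map_ne_zero _).2 np
    have hb2 : arg (1 - u i)⁻¹ ≤ π / 2 := by
      rw [Complex.arg_le_pi_div_two_iff]
      left
      rw [Complex.inv_re]
      apply div_nonneg _ (Complex.normSq_nonneg _)
      simp only [Complex.sub_re, Complex.one_re]
      linarith
    have e1 : ((2 * arg (1 - u i)⁻¹ + arg (u (i - 1)) + arg (u i) - arg (u (i + 1)) : ℝ) :
        Real.Angle) = ((π : ℝ) : Real.Angle) := by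
      have e2 : (arg ((1 - u i) ^ 2) : Real.Angle) =
          (arg (u (i - 1)) : Real.Angle) + ((arg (u i) : Real.Angle) -
            (arg (u (i + 1)) : Real.Angle) + (π : ℝ)) := by
        rw [hf, Complex.arg_mul_coe_angle nm (neg_ne_zero.2 (mul_ne_zero ni npc)), arg_uh C,
          Pool.Agent.Helper5.TB.arg_neg_angle (mul_ne_zero ni npc),
          Complex.arg_mul_coe_angle ni npc, Complex.arg_conj_coe_angle]
        abel
      rw [sq, Complex.arg_mul_coe_angle z1 z1] at e2
      rw [Real.Angle.coe_sub, Real.Angle.coe_add, Real.Angle.coe_add, two_mul,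
        Real.Angle.coe_add, e3]
      have e4 : (π : Real.Angle) = -(π : Real.Angle) := (Real.Angle.neg_coe_pi).symm
      have e5 : (arg (1 - u i) : Real.Angle) + (arg (1 - u i) : Real.Angle) -
          (arg (u (i - 1)) : Real.Angle) - (arg (u i) : Real.Angle) +
            (arg (u (i + 1)) : Real.Angle) = (π : ℝ) := by
        rw [e2]; abel
      have e6 : -(arg (1 - u i) : Real.Angle) + -(arg (1 - u i) : Real.Angle) +
          (arg (u (i - 1)) : Real.Angle) + (arg (u i) : Real.Angle) -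
            (arg (u (i + 1)) : Real.Angle) = -((arg (1 - u i) : Real.Angle) +
            (arg (1 - u i) : Real.Angle) -
          (arg (u (i - 1)) : Real.Angle) - (arg (u i) : Real.Angle) +
            (arg (u (i + 1)) : Real.Angle)) := by abel
      rw [e6, e5, ← e4]
    rw [Real.Angle.angle_eq_iff_two_pi_dvd_sub] at e1
    obtain ⟨k, hk⟩ := e1
    obtain ⟨q0, q1⟩ := arg_mem hz
    have k1 : (-1 : ℝ) < k := by
      by_contra hc; push Not at hc; nlinarith [hm.1, hm.2, hp.1, hp.2]
    have k2 : (k : ℝ) < 1 := by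
      by_contra hc; push Not at hc; nlinarith [hm.1, hm.2, hp.1, hp.2]
    have k3 : (-1 : ℤ) < k := by exact_mod_cast k1
    have k4 : k < 1 := by exact_mod_cast k2
    have k5 : k = 0 := by omega
    rw [k5] at hk
    unfold wc
    push_cast at hk
    linarith
  · have hf := C.fan i h2 hc hi
    have e1 : ((2 * arg (1 - u i)⁻¹ + arg (u (i - 1)) + arg (u (i + 1)) : ℝ) :
        Real.Angle) = ((0 : ℝ) : Real.Angle) := by
      have e2 : (arg ((1 - u i) ^ 2) : Real.Angle) =
          (arg (u (i - 1)) : Real.Angle) + (arg (u (i + 1)) : Real.Angle) := by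
        rw [hf, Complex.arg_mul_coe_angle nm np, arg_uh C]
      rw [sq, Complex.arg_mul_coe_angle z1 z1] at e2
      rw [Real.Angle.coe_add, Real.Angle.coe_add, two_mul, Real.Angle.coe_add, e3, add_assoc, ← e2]
      simp
    rw [Real.Angle.angle_eq_iff_two_pi_dvd_sub] at e1
    obtain ⟨k, hk⟩ := e1
    have k1 : (0 : ℝ) < k := by
      by_contra hc; push Not at hc; nlinarith [hm.1, hm.2, hp.1, hp.2]
    have k2 : (k : ℝ) < 2 := by
      by_contra hc; push Not at hc; nlinarith [hm.1, hm.2, hp.1, hp.2]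
    have k3 : (0 : ℤ) < k := by exact_mod_cast k1
    have k4 : k < 2 := by exact_mod_cast k2
    have k5 : k = 1 := by omega
    rw [k5] at hk
    unfold wc
    push_cast at hk
    linarith

lemma gy_wc (C : Chain n a u) {i : ℕ} (h2 : 2 ≤ i) (hc : i ≤ crossings n a - 2) :
    gy n a (wc u) i = arg (1 - (u i)⁻¹) := by
  obtain ⟨a0, b0, c0, hsum, -, -⟩ := tri (C.pos i h2 hc)
  unfold gy
  rw [gx_wc C h2 hc]
  unfold wc
  linarith

lemma wc_pos (C : Chain n a u) {i : ℕ} (h2 : 2 ≤ i) (hc : i ≤ crossings n a - 2) :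
    0 < gx n a (wc u) i ∧ 0 < gy n a (wc u) i ∧ 0 < π - wc u i := by
  obtain ⟨a0, b0, c0, hsum, -, -⟩ := tri (C.pos i h2 hc)
  rw [gx_wc C h2 hc, gy_wc C h2 hc]
  refine ⟨b0, c0, ?_⟩
  unfold wc
  linarith

lemma wc_adm (C : Chain n a u) : Adm n a (wc u) := by
  refine ⟨?_, ?_, fun i h2 hc => ?_⟩
  · unfold wc; rw [C.first, Complex.arg_one, sub_zero]
  · unfold wc; rw [C.last, Complex.arg_one, sub_zero]
  · obtain ⟨h3, h4, h5⟩ := wc_pos C h2 hc
    exact ⟨h3.le, h4.le, h5.le⟩

lemma term_wc (C : Chain n a u) {i : ℕ} (h2 : 2 ≤ i) (hc : i ≤ crossings n a - 2) :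
    Lob (gx n a (wc u) i) + Lob (gy n a (wc u) i) + Lob (π - wc u i) = BW (u i) := by
  have hz := C.pos i h2 hc
  have h0 : u i ≠ 0 := by intro h; rw [h] at hz; simp at hz
  have h1 : u i ≠ 1 := by intro h; rw [h] at hz; simp at hz
  rw [gx_wc C h2 hc, gy_wc C h2 hc, BW_eq_angles _ h0 h1]
  unfold wc
  rw [sub_sub_cancel]
  ring

lemma gvol_wc (C : Chain n a u) :
    gvol n a (wc u) = 2 * ∑ i ∈ Finset.Icc 2 (crossings n a - 2), BW (u i) := by
  unfold gvol
  rw [Finset.mul_sum]
  apply Finset.sum_congr rfl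
  intro i hi
  rw [Finset.mem_Icc] at hi
  rw [term_wc C hi.1 hi.2]

/-- log of the modulus of the shape -/
noncomputable def xx (u : ℕ → ℂ) (i : ℕ) : ℝ := Real.log ‖u i‖

/-- log of the modulus of the shape seen from the right -/
noncomputable def xh (n : ℕ) (a : ℕ → ℕ) (u : ℕ → ℂ) (i : ℕ) : ℝ := Real.log ‖uh n a u i‖

lemma xh_hinge {i : ℕ} (hi : i ∈ hinges n a) : xh n a u i = - xx u i := by
  unfold xh xx uh
  rw [if_pos hi, norm_inv, Complex.norm_conj, Real.log_inv]

lemma xh_fan {i : ℕ} (hi : i ∉ hinges n a) : xh n a u i = xx u i := by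
  unfold xh xx uh
  rw [if_neg hi]

/-- the boundary terms -/
noncomputable def QQ (n : ℕ) (a : ℕ → ℕ) (u : ℕ → ℂ) (w : ℕ → ℝ) (i : ℕ) : ℝ :=
  (xh n a u (i - 1) * (w i - wc u i) - xx u i * (w (i - 1) - wc u (i - 1))) / 2

lemma term_le (C : Chain n a u) {w : ℕ → ℝ} (hw : Adm n a w) {i : ℕ} (h2 : 2 ≤ i)
    (hc : i ≤ crossings n a - 2) :
    Lob (gx n a w i) + Lob (gy n a w i) + Lob (π - w i) ≤
      BW (u i) + (QQ n a u w i - QQ n a u w (i + 1)) := by
  have c4 := C.c4
  have hz := C.pos i h2 hc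
  obtain ⟨a0, b0, c0, hsum, l1, l2⟩ := tri hz
  obtain ⟨p1, p2, p3⟩ := hw.nonneg i h2 hc
  have z1 := one_sub_ne hz
  have nm := uh_ne C (i := i - 1) (by omega) (by omega)
  have np := C.ne_zero (i := i + 1) (by omega) (by omega)
  have ni := C.ne_zero (i := i) (by omega) (by omega)
  have T := Pool.Agent.Helper9.TB.Lob_tangent p1 p2 p3 (by unfold gy; ring) b0 c0 a0
    (by linarith)
  have t := term_wc C h2 hc
  have egx := gx_wc C h2 hc
  have egy := gy_wc C h2 hc
  have egz : π - wc u i = arg (u i) := by unfold wc; ring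
  rw [egx, egy, egz] at t
  -- the modulus of `1 - u i`
  have hM : Real.log ‖1 - u i‖ = (xh n a u (i - 1) + (if i ∈ hinges n a then xx u i else 0) +
      xx u (i + 1)) / 2 := by
    split_ifs with hi
    · have e := congrArg (fun z => Real.log ‖z‖) (C.hinge i hi)
      simp only [norm_pow, norm_mul, norm_neg, Complex.norm_conj] at e
      rw [Real.log_pow, Real.log_mul (norm_ne_zero_iff.2 nm)
        (mul_ne_zero (norm_ne_zero_iff.2 ni) (norm_ne_zero_iff.2 np)),
        Real.log_mul (norm_ne_zero_iff.2 ni) (norm_ne_zero_iff.2 np)] at e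
      unfold xh xx
      push_cast at e
      linarith
    · have e := congrArg (fun z => Real.log ‖z‖) (C.fan i h2 hc hi)
      simp only [norm_pow, norm_mul] at e
      rw [Real.log_pow, Real.log_mul (norm_ne_zero_iff.2 nm) (norm_ne_zero_iff.2 np)] at e
      unfold xh xx
      push_cast at e
      linarith
  have l1' : Real.log (2 * Real.sin (arg (1 - u i)⁻¹)) =
      Real.log (2 * Real.sin (arg (1 - (u i)⁻¹))) + xx u i := by
    unfold xx; linarith
  have l2' : Real.log (2 * Real.sin (arg (u i))) =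
      Real.log (2 * Real.sin (arg (1 - (u i)⁻¹))) + Real.log ‖1 - u i‖ := by
    linarith
  rw [l1', l2', hM] at T
  generalize hG : Real.log (2 * Real.sin (arg (1 - (u i)⁻¹))) = G at T
  have e1 : arg (1 - (u i)⁻¹) = π - arg (u i) - arg (1 - u i)⁻¹ := by linarith
  have e2 : gy n a w i = w i - gx n a w i := rfl
  have e3 : wc u i = π - arg (u i) := rfl
  unfold QQ
  rw [Nat.add_sub_cancel, ← t, e3]
  by_cases hi : i ∈ hinges n a
  · rw [if_pos hi] at T
    rw [xh_hinge hi]
    have hg : gx n a w i = (w i + w (i - 1) - w (i + 1)) / 2 := by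
      unfold gx; rw [if_pos hi]
    have hX2 : arg (1 - u i)⁻¹ = (wc u i + wc u (i - 1) - wc u (i + 1)) / 2 := by
      rw [← egx]; unfold gx; rw [if_pos hi]
    rw [e3] at hX2
    rw [e1, e2] at T
    rw [e1, e2]
    generalize arg (1 - u i)⁻¹ = X at *
    have key : (G + xx u i) * (gx n a w i - X) + G * (w i - gx n a w i - (π - arg (u i) - X)) +
        (G + (xh n a u (i - 1) + xx u i + xx u (i + 1)) / 2) * (π - w i - arg (u i)) =
        xx u i * (gx n a w i - X) - (xh n a u (i - 1) + xx u i + xx u (i + 1)) / 2 *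
          (w i - (π - arg (u i))) := by ring
    have key2 : xx u i * (gx n a w i - X) = xx u i * (((w i - (π - arg (u i))) +
        (w (i - 1) - wc u (i - 1)) - (w (i + 1) - wc u (i + 1))) / 2) := by
      rw [hg, hX2]; ring
    rw [key2] at key
    linarith
  · rw [if_neg hi] at T
    rw [xh_fan hi]
    have hg : gx n a w i = (w (i - 1) + w (i + 1)) / 2 := by
      unfold gx; rw [if_neg hi]
    have hX2 : arg (1 - u i)⁻¹ = (wc u (i - 1) + wc u (i + 1)) / 2 := by
      rw [← egx]; unfold gx; rw [if_neg hi]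
    rw [e1, e2] at T
    rw [e1, e2]
    generalize arg (1 - u i)⁻¹ = X at *
    have key : (G + xx u i) * (gx n a w i - X) + G * (w i - gx n a w i - (π - arg (u i) - X)) +
        (G + (xh n a u (i - 1) + 0 + xx u (i + 1)) / 2) * (π - w i - arg (u i)) =
        xx u i * (gx n a w i - X) - (xh n a u (i - 1) + xx u (i + 1)) / 2 *
          (w i - (π - arg (u i))) := by ring
    have key2 : xx u i * (gx n a w i - X) = xx u i * (((w (i - 1) - wc u (i - 1)) +
        (w (i + 1) - wc u (i + 1))) / 2) := by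
      rw [hg, hX2]; ring
    rw [key2] at key
    linarith

lemma sum_Icc_telescope (f : ℕ → ℝ) {c : ℕ} (hc : 4 ≤ c) :
    ∑ i ∈ Finset.Icc 2 (c - 2), (f i - f (i + 1)) = f 2 - f (c - 1) := by
  obtain ⟨m, rfl⟩ : ∃ m, c = m + 4 := ⟨c - 4, by omega⟩
  have e : m + 4 - 2 = m + 2 := by omega
  have e2 : m + 4 - 1 = m + 3 := by omega
  rw [e, e2]
  clear e e2 hc
  induction m with
  | zero => simp
  | succ m ih =>
    rw [show m + 1 + 2 = (m + 2) + 1 by ring, Finset.sum_Icc_succ_top (by omega), ih]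
    ring_nf

lemma gvol_le (C : Chain n a u) {w : ℕ → ℝ} (hw : Adm n a w) : gvol n a w ≤ gvol n a (wc u) := by
  rw [gvol_wc C]
  have h1 : gvol n a w = 2 * ∑ i ∈ Finset.Icc 2 (crossings n a - 2),
      (Lob (gx n a w i) + Lob (gy n a w i) + Lob (π - w i)) := by
    unfold gvol
    rw [Finset.mul_sum]
  have h2 : ∑ i ∈ Finset.Icc 2 (crossings n a - 2),
      (Lob (gx n a w i) + Lob (gy n a w i) + Lob (π - w i)) ≤
      ∑ i ∈ Finset.Icc 2 (crossings n a - 2),
        (BW (u i) + (QQ n a u w i - QQ n a u w (i + 1))) :=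
    Finset.sum_le_sum fun i hi => by
      rw [Finset.mem_Icc] at hi
      exact term_le C hw hi.1 hi.2
  have c4 := C.c4
  have h3 : ∑ i ∈ Finset.Icc 2 (crossings n a - 2),
        (BW (u i) + (QQ n a u w i - QQ n a u w (i + 1))) =
      ∑ i ∈ Finset.Icc 2 (crossings n a - 2), BW (u i) +
        (QQ n a u w 2 - QQ n a u w (crossings n a - 1)) := by
    rw [Finset.sum_add_distrib, sum_Icc_telescope _ C.c4]
  rw [h3] at h2
  have q1 : QQ n a u w 2 = 0 := by
    unfold QQ
    have e1 : xh n a u (2 - 1) = 0 := by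
      rw [show 2 - 1 = 1 from rfl, xh_fan C.one_not]
      unfold xx
      rw [C.first, norm_one, Real.log_one]
    have e2 : w (2 - 1) - wc u (2 - 1) = 0 := by
      rw [show 2 - 1 = 1 from rfl, hw.first, (wc_adm C).first, sub_self]
    rw [e1, e2]
    ring
  have q2 : QQ n a u w (crossings n a - 1) = 0 := by
    unfold QQ
    have e1 : xx u (crossings n a - 1) = 0 := by
      unfold xx
      rw [C.last, norm_one, Real.log_one]
    have e2 : w (crossings n a - 1) - wc u (crossings n a - 1) = 0 := by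
      rw [hw.last, (wc_adm C).last, sub_self]
    rw [e1, e2]
    ring
  rw [q1, q2] at h2
  rw [h1]
  linarith

end Pool.Agent.Helper96.TF
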