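import Pool.Agent.Helper96.TF.HRel

/-!
# The relations between the shapes
-/

set_option autoImplicit false

namespace Pool.Agent.Helper9.TF

open Complex

variable {n : ℕ} {a : ℕ → ℕ} {y t : ℕ → ℂ}

lemma cj_ne (ha : ∀ i, i < n → 1000 ≤ a i) (H : Crit n a y t) {r : ℕ} (hr : r < n) (s : ℕ) :
    cj s (y r) ≠ 0 := by
  intro h0
  have h := cj_near_y H hr s
  have h1 : (1000 : ℝ) ≤ a r := by exact_mod_cast ha r hr
  have h2 : (0 : ℝ) < a r := by linarith
  rw [h0, zero_sub, norm_neg, norm_div, norm_one, Complex.norm_natCast] at h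
  rw [div_le_div_iff₀ h2 (by positivity)] at h
  nlinarith

lemma sin_ne {y : ℂ} (hy : ‖y‖ < 1 / 200) (h0 : y ≠ 0) : Complex.sin (Real.pi * y) ≠ 0 := by
  intro h
  rw [Complex.sin_eq_zero_iff] at h
  obtain ⟨k, hk⟩ := h
  have hpi : (Real.pi : ℂ) ≠ 0 := Complex.ofReal_ne_zero.2 Real.pi_ne_zero
  have e : y = k := by
    have : (Real.pi : ℂ) * y = Real.pi * k := by rw [hk]; ring
    exact mul_left_cancel₀ hpi this
  have hk0 : k ≠ 0 := by
    rintro rfl
    exact h0 (by simpa using e)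
  have h1 : (1 : ℝ) ≤ |(k : ℝ)| := by exact_mod_cast Int.one_le_abs hk0
  rw [e, Complex.norm_intCast] at hy
  linarith

lemma sin_cj_ne (ha : ∀ i, i < n → 1000 ≤ a i) (H : Crit n a y t) {r : ℕ} (hr : r < n) (s : ℕ) :
    Complex.sin (Real.pi * cj s (y r)) ≠ 0 := sin_ne (cj_small ha H hr s) (cj_ne ha H hr s)

lemma ph_succ (y t : ℕ → ℂ) (r k : ℕ) : ph y t r (k + 1) = ph y t r k + Real.pi * cj r (y r) := by
  unfold ph
  push_cast
  ring

lemma sin_mul_sin (p q : ℂ) : Complex.sin (p - q) * Complex.sin (p + q) =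
    Complex.sin p ^ 2 - Complex.sin q ^ 2 := by
  rw [Complex.sin_sub, Complex.sin_add]
  have h1 := Complex.sin_sq_add_cos_sq p
  have h2 := Complex.sin_sq_add_cos_sq q
  linear_combination (-Complex.sin q ^ 2) * h1 + Complex.sin p ^ 2 * h2

lemma US_fan (ha : ∀ i, i < n → 1000 ≤ a i) (H : Crit n a y t) {r : ℕ} (hr : r < n) (k : ℕ) :
    (1 - US y t r (k + 1)) ^ 2 = US y t r k * US y t r (k + 2) := by
  have hs := sin_cj_ne ha H hr r
  unfold US
  rw [ph_succ y t r (k + 1), ph_succ y t r k]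
  generalize ph y t r k = p at *
  generalize Real.pi * cj r (y r) = q at *
  have h := sin_mul_sin (p + q) q
  rw [add_sub_cancel_right] at h
  have e : 1 - (Complex.sin (p + q) / Complex.sin q) ^ 2 =
      -(Complex.sin p * Complex.sin (p + q + q)) / Complex.sin q ^ 2 := by
    rw [h]; field_simp; ring
  rw [e]
  field_simp

lemma US_first (ha : ∀ i, i < n → 1000 ≤ a i) (H : Crit n a y t) (hn : 0 < n) :
    US y t 0 1 = 1 := by
  have hs := sin_cj_ne ha H hn 0
  unfold US ph
  rw [if_pos rfl]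
  simp only [Nat.cast_one, one_mul, zero_add]
  rw [div_self hs, one_pow]

lemma US_last (ha : ∀ i, i < n → 1000 ≤ a i) (H : Crit n a y t) {r : ℕ} (hr : r + 1 = n) :
    US y t r (a r - 1) = 1 ∧ US y t r (a r) = 0 := by
  have hr' : r < n := by omega
  have hs := sin_cj_ne ha H hr' r
  have he := ph_end ha H hr'
  rw [if_pos hr, sub_zero] at he
  have h1 := ha r hr'
  constructor
  · have e : ph y t r (a r - 1) = Real.pi - Real.pi * cj r (y r) := by
      have := ph_succ y t r (a r - 1)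
      rw [Nat.sub_add_cancel (by omega), he] at this
      linear_combination -this
    unfold US
    rw [e, Complex.sin_pi_sub, div_self hs, one_pow]
  · unfold US
    rw [he, Complex.sin_pi, zero_div]
    norm_num

lemma US_right (ha : ∀ i, i < n → 1000 ≤ a i) (H : Crit n a y t) {r : ℕ} (hr : r + 1 < n) :
    US y t r (a r) = -((1 - Complex.cos (2 * Real.pi * cj r (t r))) /
        (Complex.cos (2 * Real.pi * cj r (t r)) + Complex.cos (2 * Real.pi * cj r (y r)))) ∧
    US y t r (a r - 1) = (1 + Complex.cos (2 * Real.pi * cj r (y r))) *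
        Complex.exp (2 * Real.pi * I * cj r (t r)) /
        (Complex.cos (2 * Real.pi * cj r (t r)) + Complex.cos (2 * Real.pi * cj r (y r))) := by
  have hr' : r < n := by omega
  have hs := sin_cj_ne ha H hr' r
  have he := ph_end ha H hr'
  rw [if_neg (by omega)] at he
  obtain ⟨-, h1, h2, -⟩ := hinge_sq (cj_small ha H hr' r) (cj_near_t H hr r) hs
  have h3 := ha r hr'
  constructor
  · unfold US
    rw [he, Complex.sin_pi_sub, h1]
  · have e : ph y t r (a r - 1) = Real.pi - (ps (cj r (y r)) (cj r (t r)) +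
        Real.pi * cj r (y r)) := by
      have := ph_succ y t r (a r - 1)
      rw [Nat.sub_add_cancel (by omega), he] at this
      linear_combination -this
    unfold US
    rw [e, Complex.sin_pi_sub, h2]

lemma cj_cos (_r : ℕ) (z : ℂ) : Complex.cos (2 * Real.pi * (starRingEnd ℂ) z) =
    (starRingEnd ℂ) (Complex.cos (2 * Real.pi * z)) := by
  rw [← Complex.cos_conj]
  congr 1
  simp only [map_mul, Complex.conj_ofReal, Complex.conj_ofNat]

lemma conj_exp_neg (z : ℂ) : (starRingEnd ℂ) (Complex.exp (2 * Real.pi * I * (starRingEnd ℂ) z)) =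
    Complex.exp (-(2 * Real.pi * I * z)) := by
  rw [← Complex.exp_conj]
  congr 1
  simp only [map_mul, Complex.conj_ofReal, Complex.conj_I, Complex.conj_ofNat, Complex.conj_conj]
  ring

lemma US_left (ha : ∀ i, i < n → 1000 ≤ a i) (H : Crit n a y t) {r : ℕ} (hr : r + 1 < n) :
    (starRingEnd ℂ) (US y t (r + 1) 0) = -((1 - Complex.cos (2 * Real.pi * cj r (t r))) /
        (Complex.cos (2 * Real.pi * cj r (t r)) + Complex.cos (2 * Real.pi * cj r (y (r + 1))))) ∧
    (starRingEnd ℂ) (US y t (r + 1) 1) = (1 + Complex.cos (2 * Real.pi * cj r (y (r + 1)))) *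
        Complex.exp (-(2 * Real.pi * I * cj r (t r))) /
        (Complex.cos (2 * Real.pi * cj r (t r)) + Complex.cos (2 * Real.pi * cj r (y (r + 1)))) := by
  have hs := sin_cj_ne ha H hr (r + 1)
  obtain ⟨-, h1, h2, -⟩ := hinge_sq (cj_small ha H hr (r + 1)) (cj_near_t H hr (r + 1)) hs
  have e0 : ph y t (r + 1) 0 = ps (cj (r + 1) (y (r + 1))) (cj (r + 1) (t r)) := by
    unfold ph
    rw [if_neg (Nat.succ_ne_zero r), Nat.add_sub_cancel]
    simp
  have e1 : ph y t (r + 1) 1 = ps (cj (r + 1) (y (r + 1))) (cj (r + 1) (t r)) +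
      Real.pi * cj (r + 1) (y (r + 1)) := by
    rw [ph_succ y t (r + 1) 0, e0]
  constructor
  · unfold US
    rw [e0, h1, cj_succ r (t r), cj_succ r (y (r + 1)), cj_cos r, cj_cos r]
    simp only [map_neg, map_div₀, map_sub, map_one, map_add, Complex.conj_conj]
  · unfold US
    rw [e1, h2, cj_succ r (t r), cj_succ r (y (r + 1)), cj_cos r, cj_cos r, map_div₀, map_mul,
      conj_exp_neg]
    simp only [map_one, map_add, Complex.conj_conj]

/-- the basic quantities at a hinge -/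
lemma hinge_data (ha : ∀ i, i < n → 1000 ≤ a i) (H : Crit n a y t) {r : ℕ} (hr : r + 1 < n) :
    ∃ K cA cB T : ℂ, cA = Complex.cos (2 * Real.pi * cj r (y r)) ∧
      cB = Complex.cos (2 * Real.pi * cj r (y (r + 1))) ∧
      T ≠ 0 ∧ 1 - K ≠ 0 ∧ K + cA ≠ 0 ∧ K + cB ≠ 0 ∧
      (K + cA) * (K + cB) = (1 - K) ^ 2 ∧
      US y t r (a r) = -((1 - K) / (K + cA)) ∧
      US y t r (a r - 1) = (1 + cA) * T / (K + cA) ∧
      (starRingEnd ℂ) (US y t (r + 1) 0) = -((1 - K) / (K + cB)) ∧
      (starRingEnd ℂ) (US y t (r + 1) 1) = (1 + cB) / (T * (K + cB)) := by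
  have hr' : r < n := by omega
  have n1 := cj_small ha H hr' r
  have n2 := cj_small ha H hr r
  have n3 := cj_near_t H hr r
  have hk : gamt (cj r (y r)) (cj r (t r)) + gamt (cj r (y (r + 1))) (cj r (t r)) = 0 := by
    have hk0 := H.kern r hr
    by_cases he : Even r
    · simp only [cj_even he]; exact hk0
    · simp only [cj_odd he]
      have m1 := cj_small ha H hr' 0
      have m2 := cj_small ha H hr 0
      rw [cj_even (by decide)] at m1 m2
      rw [gamt_conj m1 (H.near_t r hr), gamt_conj m2 (H.near_t r hr), ← map_add, hk0, map_zero]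
  have hkk := kern_eq n1 n2 n3 hk
  obtain ⟨-, h0⟩ := exp_gamt n1 n3
  obtain ⟨hA, -, -, -⟩ := hinge_sq n1 n3 (sin_cj_ne ha H hr' r)
  obtain ⟨hB, -, -, -⟩ := hinge_sq n2 n3 (sin_cj_ne ha H hr r)
  obtain ⟨r1, r2⟩ := US_right ha H hr
  obtain ⟨l1, l2⟩ := US_left ha H hr
  refine ⟨_, _, _, Complex.exp (2 * Real.pi * I * cj r (t r)), rfl, rfl, Complex.exp_ne_zero _, h0,
    hA, hB, hkk, r1, r2, l1, ?_⟩
  rw [l2, Complex.exp_neg]
  field_simp

lemma US_zero (ha : ∀ i, i < n → 1000 ≤ a i) (H : Crit n a y t) {r : ℕ} (hr : r + 1 < n) :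
    US y t (r + 1) 0 = ((starRingEnd ℂ) (US y t r (a r)))⁻¹ := by
  obtain ⟨K, cA, cB, T, -, -, hT, h0, hA, hB, hk, e1, e2, e3, e4⟩ := hinge_data ha H hr
  have e5 := congrArg (starRingEnd ℂ) e3
  rw [Complex.conj_conj] at e5
  rw [e5, ← map_inv₀, e1]
  congr 1
  rw [← neg_inv, inv_div]
  congr 1
  rw [div_eq_div_iff hB h0]
  linear_combination -hk

lemma US_hinge (ha : ∀ i, i < n → 1000 ≤ a i) (H : Crit n a y t) {r : ℕ} (hr : r + 1 < n) :
    (1 - US y t r (a r)) ^ 2 =
      US y t r (a r - 1) * (-(US y t r (a r) * (starRingEnd ℂ) (US y t (r + 1) 1))) := by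
  obtain ⟨K, cA, cB, T, -, -, hT, h0, hA, hB, hk, e1, e2, e3, e4⟩ := hinge_data ha H hr
  rw [e4, e1, e2]
  have h1 : (1 + cA) * (K + cB) = (1 + cB) * (1 - K) := by linear_combination hk
  have e5 : 1 - -((1 - K) / (K + cA)) = (1 + cA) / (K + cA) := by
    field_simp; ring
  rw [e5]
  have e6 : (1 + cA) * T / (K + cA) * -(-((1 - K) / (K + cA)) * ((1 + cB) / (T * (K + cB)))) =
      (1 + cA) * ((1 + cB) * (1 - K)) / ((K + cA) ^ 2 * (K + cB)) := by
    field_simp
  rw [e6, ← h1]
  field_simp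

lemma US_form (ha : ∀ i, i < n → 1000 ≤ a i) (H : Crit n a y t) {r : ℕ} (hr : r + 1 < n)
    (hA1 : 1 + Complex.cos (2 * Real.pi * cj r (y r)) ≠ 0) :
    US y t r (a r) = -((1 + Complex.cos (2 * Real.pi * cj r (y (r + 1)))) /
      (1 + Complex.cos (2 * Real.pi * cj r (y r)))) := by
  obtain ⟨K, cA, cB, T, hcA, hcB, hT, h0, hA, hB, hk, e1, e2, e3, e4⟩ := hinge_data ha H hr
  rw [← hcA, ← hcB, e1]
  rw [← hcA] at hA1
  congr 1
  rw [div_eq_div_iff hA hA1]
  linear_combination -hk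

lemma cos_two_pi_im (z : ℂ) : (Complex.cos (2 * Real.pi * z)).im =
    -(Real.sin (2 * Real.pi * z.re) * Real.sinh (2 * Real.pi * z.im)) := by
  have e1 : Complex.cos (2 * Real.pi * z) = Complex.cos ((2 * Real.pi * z.re : ℝ) +
      (2 * Real.pi * z.im : ℝ) * I) := by
    congr 1
    apply Complex.ext <;> simp
  rw [e1, Complex.cos_add_mul_I, ← Complex.ofReal_cos, ← Complex.ofReal_cosh,
    ← Complex.ofReal_sin, ← Complex.ofReal_sinh]
  simp only [Complex.sub_im, Complex.mul_re, Complex.ofReal_re, Complex.ofReal_im,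
    Complex.I_re, Complex.I_im, Complex.mul_im]
  ring

lemma cos_two_pi_near {z : ℂ} (hz : ‖z‖ < 1 / 200) : ‖Complex.cos (2 * Real.pi * z) - 1‖ ≤ 1 / 4 := by
  have h1 : ‖2 * Real.pi * z‖ ≤ 1 / 2 := by
    rw [norm_mul, norm_mul, Complex.norm_real, Real.norm_eq_abs, abs_of_pos Real.pi_pos,
      RCLike.norm_ofNat]
    nlinarith [Real.pi_lt_d2, Real.pi_pos, norm_nonneg z]
  have h2 := (trig_small (h1.trans (by norm_num))).1
  nlinarith [norm_nonneg (2 * Real.pi * z)]

lemma US_hpos (ha : ∀ i, i < n → 1000 ≤ a i) (H : Crit n a y t) {r : ℕ} (hr : r + 1 < n)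
    (hs : ∀ r, r < n → 0 < (cj r (y r)).re ∧ (cj r (y r)).im < 0) :
    0 < (US y t r (a r)).im ∧ (US y t r (a r)).re ≤ 1 := by
  have hr' : r < n := by omega
  obtain ⟨sA, sA'⟩ := hs r hr'
  obtain ⟨sB, sB'⟩ := hs (r + 1) hr
  rw [cj_succ, Complex.conj_re] at sB
  rw [cj_succ, Complex.conj_im] at sB'
  have n1 := cj_small ha H hr' r
  have n2 := cj_small ha H hr r
  have nA := cos_two_pi_near n1
  have nB := cos_two_pi_near n2
  have iA := cos_two_pi_im (cj r (y r))
  have iB := cos_two_pi_im (cj r (y (r + 1)))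
  have rA : (cj r (y r)).re < 1 / 200 := (Complex.re_le_norm _).trans_lt n1
  have rB : (cj r (y (r + 1))).re < 1 / 200 := (Complex.re_le_norm _).trans_lt n2
  have hpi := Real.pi_pos
  have sinA : 0 < Real.sin (2 * Real.pi * (cj r (y r)).re) :=
    Real.sin_pos_of_pos_of_lt_pi (by positivity) (by nlinarith)
  have sinB : 0 < Real.sin (2 * Real.pi * (cj r (y (r + 1))).re) :=
    Real.sin_pos_of_pos_of_lt_pi (by positivity) (by nlinarith)
  have shA : Real.sinh (2 * Real.pi * (cj r (y r)).im) < 0 :=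
    Real.sinh_neg_iff.2 (by nlinarith)
  have shB : 0 < Real.sinh (2 * Real.pi * (cj r (y (r + 1))).im) :=
    Real.sinh_pos_iff.2 (by nlinarith)
  have pA : 0 < (Complex.cos (2 * Real.pi * cj r (y r))).im := by rw [iA]; nlinarith
  have pB : (Complex.cos (2 * Real.pi * cj r (y (r + 1)))).im < 0 := by rw [iB]; nlinarith
  have hform := US_form ha H hr
  generalize Complex.cos (2 * Real.pi * cj r (y r)) = cA at *
  generalize Complex.cos (2 * Real.pi * cj r (y (r + 1))) = cB at *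
  have a1 := (Complex.abs_re_le_norm (cA - 1)).trans nA
  have a2 := (Complex.abs_im_le_norm (cA - 1)).trans nA
  have b1 := (Complex.abs_re_le_norm (cB - 1)).trans nB
  have b2 := (Complex.abs_im_le_norm (cB - 1)).trans nB
  simp only [Complex.sub_re, Complex.sub_im, Complex.one_re, Complex.one_im, sub_zero] at a1 a2 b1 b2
  rw [abs_le] at a1 a2 b1 b2
  have hre : (1 + cA).re = 1 + cA.re := by simp
  have him : (1 + cA).im = cA.im := by simp
  have hre' : (1 + cB).re = 1 + cB.re := by simp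
  have him' : (1 + cB).im = cB.im := by simp
  have hA1 : 1 + cA ≠ 0 := by
    intro h0
    have := congrArg Complex.re h0
    rw [hre, Complex.zero_re] at this
    linarith [a1.1]
  have hN : 0 < Complex.normSq (1 + cA) := Complex.normSq_pos.2 hA1
  rw [hform hA1]
  have hNe : Complex.normSq (1 + cA) = (1 + cA.re) ^ 2 + cA.im ^ 2 := by
    rw [Complex.normSq_apply, hre, him]; ring
  constructor
  · rw [Complex.neg_im, Complex.div_im, hre, him, hre', him', ← sub_div, ← neg_div]
    apply div_pos _ hN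
    nlinarith [mul_pos pA (show (0 : ℝ) < 1 + cB.re by linarith [b1.1]),
      mul_pos (neg_pos.2 pB) (show (0 : ℝ) < 1 + cA.re by linarith [a1.1])]
  · rw [Complex.neg_re, Complex.div_re, hre, him, hre', him', ← add_div, ← neg_div,
      div_le_one hN, hNe]
    nlinarith [mul_pos (show (0 : ℝ) < 1 + cB.re by linarith [b1.1])
      (show (0 : ℝ) < 1 + cA.re by linarith [a1.1]), sq_nonneg (cA.im + cB.im), sq_nonneg cB.im]

end Pool.Agent.Helper9.TF
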