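import Pool.Agent.Helper96.TF.Index
import Pool.Agent.Helper96.TF.URel
import Pool.Agent.Helper96.TF.Chain

/-!
# Assembly
-/

set_option autoImplicit false

namespace Pool.Agent.Helper96.TF

open Complex Finset
open Pool.Agent.Helper9.TF
open Pool.Agent.Helper5.TB (BW BW_inv BW_conj BW_zero BW_one)

variable {n : ℕ} {a : ℕ → ℕ} {y t : ℕ → ℂ}

/-- the shape of the layer `i` -/
noncomputable def uu (n : ℕ) (a : ℕ → ℕ) (y t : ℕ → ℂ) (i : ℕ) : ℂ :=
  US y t (rg n a i) (i - st a (rg n a i))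

lemma uu_eq {r k : ℕ} (hr : r < n) (h1 : 1 ≤ k) (h2 : k ≤ a r) :
    uu n a y t (st a r + k) = US y t r k := by
  unfold uu
  rw [rg_eq hr h1 h2, Nat.add_sub_cancel_left]

/-- the positivity hypothesis -/
def HPos (n : ℕ) (a : ℕ → ℕ) (y t : ℕ → ℂ) : Prop :=
  ∀ r, r < n → (0 < (cj r (y r)).re ∧ (cj r (y r)).im < 0) ∧
      ∀ k, 1 ≤ k → k < a r → (r = 0 → 2 ≤ k) → (r + 1 = n → k + 2 ≤ a r) →
        0 < (US y t r k).im

lemma chain_uu (hn : 2 ≤ n) (ha : ∀ i, i < n → 1000 ≤ a i) (H : Crit n a y t)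
    (hp : HPos n a y t) : Chain n a (uu n a y t) := by
  have ha1 : ∀ i, i < n → 1 ≤ a i := fun i hi => by have := ha i hi; omega
  have hs : ∀ r, r < n → 0 < (cj r (y r)).re ∧ (cj r (y r)).im < 0 := fun r hr => (hp r hr).1
  obtain ⟨m, rfl⟩ : ∃ m, n = m + 1 := ⟨n - 1, by omega⟩
  have hc : crossings (m + 1) a = st a m + a m := by rw [← st_crossings, st_succ]
  have h0 : 1000 ≤ a 0 := ha 0 (by omega)
  have hm : 1000 ≤ a m := ha m (by omega)
  have hst : ∀ r, r < m → st a r + a r ≤ st a m := fun r hr => by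
    rw [← st_succ]; exact st_mono a hr
  have h01 : (1 : ℕ) = st a 0 + 1 := by rw [st_zero]
  -- classification of the layers
  have cls : ∀ i, 2 ≤ i → i ≤ crossings (m + 1) a - 2 → ∃ r k, r < m + 1 ∧ 1 ≤ k ∧ k ≤ a r ∧
      i = st a r + k ∧ (r = 0 → 2 ≤ k) ∧ (r + 1 = m + 1 → k + 2 ≤ a r) := by
    intro i h1 h2
    obtain ⟨r, k, h3, h4, h5, h6⟩ := exists_rk (n := m + 1) (a := a) (i := i) (by omega)
      (by omega) (by omega)
    refine ⟨r, k, h3, h4, h5, h6, ?_, ?_⟩
    · rintro rfl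
      rw [st_zero] at h6
      omega
    · intro h7
      have : r = m := by omega
      subst this
      omega
  have hingecls : ∀ i ∈ hinges (m + 1) a, ∃ r, r < m ∧ i = st a r + a r := by
    intro i hi
    unfold hinges at hi
    rw [mem_image] at hi
    obtain ⟨j, hj, he⟩ := hi
    rw [mem_range] at hj
    refine ⟨j, by omega, ?_⟩
    rw [← he, ← st_succ]
    rfl
  have hin : ∀ r, r < m → st a r + a r ∈ hinges (m + 1) a := fun r hr =>
    (mem_hinges ha1 (by omega) (ha1 r (by omega)) le_rfl).2 ⟨rfl, by omega⟩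
  have hnot : ∀ r k, r < m + 1 → 1 ≤ k → k < a r → st a r + k ∉ hinges (m + 1) a := by
    intro r k h1 h2 h3 h4
    have := (mem_hinges ha1 h1 h2 h3.le).1 h4
    omega
  refine ⟨by omega, ?_, ?_, ?_, ?_, ?_, ?_, ?_, ?_⟩
  · rw [h01, uu_eq (by omega) le_rfl (by omega)]
    exact US_first ha H (by omega)
  · have e : crossings (m + 1) a - 1 = st a m + (a m - 1) := by omega
    rw [e, uu_eq (by omega) (by omega) (by omega)]
    exact (US_last ha H rfl).1
  · rw [h01]
    exact hnot 0 1 (by omega) le_rfl (by omega)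
  · intro i hi
    obtain ⟨r, hr, rfl⟩ := hingecls i hi
    have h1 := hst r hr
    have h2 := ha r (by omega)
    omega
  · intro i h1 h2
    obtain ⟨r, k, h3, h4, h5, rfl, h7, h8⟩ := cls i h1 h2
    rw [uu_eq h3 h4 h5]
    rcases eq_or_lt_of_le h5 with rfl | h9
    · exact (US_hpos ha H (by omega) hs).1
    · exact (hp r h3).2 k h4 h9 h7 h8
  · intro i h1 h2 hi
    obtain ⟨r, k, h3, h4, h5, rfl, h7, h8⟩ := cls i h1 h2
    have h9 : k < a r := by
      rcases eq_or_lt_of_le h5 with rfl | h9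
      · exact absurd (hin r (by omega)) hi
      · exact h9
    obtain ⟨k', rfl⟩ : ∃ k', k = k' + 1 := ⟨k - 1, by omega⟩
    have e1 : uu (m + 1) a y t (st a r + (k' + 1) + 1) = US y t r (k' + 2) := by
      rw [add_assoc, uu_eq h3 (by omega) (by omega)]
    have e2 : uh (m + 1) a (uu (m + 1) a y t) (st a r + (k' + 1) - 1) = US y t r k' := by
      rcases Nat.eq_zero_or_pos k' with rfl | hk
      · have hr0 : r ≠ 0 := by
          intro h0
          have := h7 h0
          omega
        obtain ⟨r', rfl⟩ : ∃ r', r = r' + 1 := ⟨r - 1, by omega⟩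
        have e3 : st a (r' + 1) + (0 + 1) - 1 = st a r' + a r' := by
          rw [st_succ]; omega
        rw [e3]
        unfold uh
        rw [if_pos (hin r' (by omega)), uu_eq (by omega) (ha1 r' (by omega)) le_rfl,
          US_zero ha H h3]
      · have e3 : st a r + (k' + 1) - 1 = st a r + k' := by omega
        rw [e3]
        unfold uh
        rw [if_neg (hnot r k' h3 hk (by omega)), uu_eq h3 hk (by omega)]
    rw [uu_eq h3 h4 h5, e1, e2]
    exact US_fan ha H h3 k'
  · intro i hi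
    obtain ⟨r, hr, rfl⟩ := hingecls i hi
    have h2 := ha r (by omega)
    have e1 : uu (m + 1) a y t (st a r + a r + 1) = US y t (r + 1) 1 := by
      rw [← st_succ, uu_eq (by omega) le_rfl (ha1 (r + 1) (by omega))]
    have e2 : uh (m + 1) a (uu (m + 1) a y t) (st a r + a r - 1) = US y t r (a r - 1) := by
      have e3 : st a r + a r - 1 = st a r + (a r - 1) := by omega
      rw [e3]
      unfold uh
      rw [if_neg (hnot r (a r - 1) (by omega) (by omega) (by omega)),
        uu_eq (by omega) (by omega) (by omega)]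
    rw [e1, e2, uu_eq (by omega) (by omega) le_rfl]
    exact US_hinge ha H (by omega)
  · intro i hi
    obtain ⟨r, hr, rfl⟩ := hingecls i hi
    rw [uu_eq (by omega) (ha1 r (by omega)) le_rfl]
    exact (US_hpos ha H (by omega) hs).2

/-- the sum hypothesis -/
def HSum (n : ℕ) (a : ℕ → ℕ) (y t : ℕ → ℂ) : Prop := ∀ r, r < n →
    2 * ∑ k ∈ Ico 1 (a r), BW (US y t r k) + (if r = 0 then 0 else BW (US y t r 0)) +
        (if r + 1 = n then 0 else BW (US y t r (a r))) =
      (if r = 0 then 0 else GG (y r) (t (r - 1))) + (if r + 1 = n then 0 else GG (y r) (t r))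

lemma sum_uu (hn : 2 ≤ n) (ha : ∀ i, i < n → 1000 ≤ a i) (H : Crit n a y t)
    (hS : HSum n a y t) :
    2 * ∑ i ∈ Icc 2 (crossings n a - 2), BW (uu n a y t i) =
      ∑ j ∈ range (n - 1), (GG (y j) (t j) + GG (y (j + 1)) (t j)) := by
  obtain ⟨m, rfl⟩ : ∃ m, n = m + 1 := ⟨n - 1, by omega⟩
  have hc : crossings (m + 1) a = st a m + a m := by rw [← st_crossings, st_succ]
  have h0 : 1000 ≤ a 0 := ha 0 (by omega)
  have hm : 1000 ≤ a m := ha m (by omega)
  have h01 : (1 : ℕ) = st a 0 + 1 := by rw [st_zero]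
  -- extend the range of summation
  have e1 : ∑ i ∈ Icc 2 (crossings (m + 1) a - 2), BW (uu (m + 1) a y t i) =
      ∑ i ∈ Ico 1 (st a (m + 1) + 1), BW (uu (m + 1) a y t i) := by
    obtain ⟨c, hc'⟩ : ∃ c, crossings (m + 1) a = c + 4 := ⟨crossings (m + 1) a - 4, by omega⟩
    rw [st_crossings, hc']
    have f1 : BW (uu (m + 1) a y t 1) = 0 := by
      rw [h01, uu_eq (by omega) le_rfl (by omega), US_first ha H (by omega), BW_one]
    have f2 : BW (uu (m + 1) a y t (c + 3)) = 0 := by
      have e : c + 3 = st a m + (a m - 1) := by omega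
      rw [e, uu_eq (by omega) (by omega) (by omega), (US_last ha H rfl).1, BW_one]
    have f3 : BW (uu (m + 1) a y t (c + 4)) = 0 := by
      have e : c + 4 = st a m + a m := by omega
      rw [e, uu_eq (by omega) (by omega) le_rfl, (US_last ha H rfl).2, BW_zero]
    rw [show c + 4 + 1 = (c + 4) + 1 from rfl, sum_Ico_succ_top (by omega),
      show c + 4 = (c + 3) + 1 from rfl, sum_Ico_succ_top (by omega),
      sum_eq_sum_Ico_succ_bot (by omega), show c + 3 + 1 = c + 4 from rfl, f1, f2, f3, zero_add,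
      add_zero, add_zero]
    apply sum_congr _ fun _ _ => rfl
    ext i
    rw [mem_Icc, mem_Ico]
    omega
  rw [e1, sum_layers]
  have e2 : ∀ r ∈ range (m + 1), ∑ k ∈ Ico 1 (a r + 1), BW (uu (m + 1) a y t (st a r + k)) =
      ∑ k ∈ Ico 1 (a r), BW (US y t r k) + BW (US y t r (a r)) := by
    intro r hr
    rw [mem_range] at hr
    have h1 := ha r hr
    have h2 : ∑ k ∈ Ico 1 (a r), BW (uu (m + 1) a y t (st a r + k)) =
        ∑ k ∈ Ico 1 (a r), BW (US y t r k) := by
      apply sum_congr rfl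
      intro k hk
      rw [mem_Ico] at hk
      rw [uu_eq hr hk.1 hk.2.le]
    rw [sum_Ico_succ_top (by omega), uu_eq hr (by omega) le_rfl, h2]
  rw [sum_congr rfl e2, mul_sum]
  -- use the sum over each region
  have e3 : ∀ r ∈ range (m + 1), 2 * (∑ k ∈ Ico 1 (a r), BW (US y t r k) + BW (US y t r (a r))) =
      ((if r = 0 then 0 else GG (y r) (t (r - 1))) + (if r + 1 = m + 1 then 0 else GG (y r) (t r))) +
      (2 * BW (US y t r (a r)) - (if r = 0 then 0 else BW (US y t r 0)) -
        (if r + 1 = m + 1 then 0 else BW (US y t r (a r)))) := by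
    intro r hr
    rw [mem_range] at hr
    have := hS r hr
    linarith
  rw [sum_congr rfl e3, sum_add_distrib, sum_add_distrib, sum_sub_distrib, sum_sub_distrib]
  have s1 : ∑ r ∈ range (m + 1), (if r = 0 then 0 else GG (y r) (t (r - 1))) =
      ∑ j ∈ range m, GG (y (j + 1)) (t j) := by
    rw [sum_range_succ']
    simp
  have s2 : ∑ r ∈ range (m + 1), (if r + 1 = m + 1 then 0 else GG (y r) (t r)) =
      ∑ j ∈ range m, GG (y j) (t j) := by
    rw [sum_range_succ, if_pos rfl, add_zero]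
    apply sum_congr rfl
    intro j hj
    rw [mem_range] at hj
    rw [if_neg (by omega)]
  have s3 : ∑ r ∈ range (m + 1), (if r = 0 then 0 else BW (US y t r 0)) =
      ∑ j ∈ range m, BW (US y t j (a j)) := by
    rw [sum_range_succ']
    simp only [Nat.succ_ne_zero, if_false, if_true, add_zero]
    apply sum_congr rfl
    intro j hj
    rw [mem_range] at hj
    rw [US_zero ha H (by omega), BW_inv, BW_conj, neg_neg]
  have s4 : ∑ r ∈ range (m + 1), (if r + 1 = m + 1 then 0 else BW (US y t r (a r))) =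
      ∑ j ∈ range m, BW (US y t j (a j)) := by
    rw [sum_range_succ, if_pos rfl, add_zero]
    apply sum_congr rfl
    intro j hj
    rw [mem_range] at hj
    rw [if_neg (by omega)]
  have s5 : ∑ r ∈ range (m + 1), 2 * BW (US y t r (a r)) =
      2 * ∑ j ∈ range m, BW (US y t j (a j)) := by
    rw [sum_range_succ, (US_last ha H rfl).2, BW_zero, mul_sum]
    ring
  rw [s1, s2, s3, s4, s5, Nat.add_sub_cancel, sum_add_distrib]
  ring

/-- The main assembly. -/
theorem gf_asm (hn : 2 ≤ n) (ha : ∀ i, i < n → 1000 ≤ a i) (H : Crit n a y t)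
    (hp : HPos n a y t) (hS : HSum n a y t)
    (hE : Real.pi * (EV n a y t).re =
      1 / 2 * ∑ j ∈ range (n - 1), (GG (y j) (t j) + GG (y (j + 1)) (t j))) :
    ∃ w : ℕ → ℝ, Adm n a w ∧
      (∀ i, 2 ≤ i → i ≤ crossings n a - 2 → 0 < gx n a w i ∧ 0 < gy n a w i ∧ 0 < Real.pi - w i) ∧
      (∀ w', Adm n a w' → gvol n a w' ≤ gvol n a w) ∧
      gvol n a w = 2 * Real.pi * (EV n a y t).re := by
  have C := chain_uu hn ha H hp
  refine ⟨wc (uu n a y t), wc_adm C, fun i h1 h2 => wc_pos C h1 h2, fun w' hw => gvol_le C hw, ?_⟩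
  rw [gvol_wc C, sum_uu hn ha H hS]
  linarith

end Pool.Agent.Helper96.TF
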