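import Pool.Agent.Helper96.TF.Base

/-!
# The relations at the hinges
-/

set_option autoImplicit false

namespace Pool.Agent.Helper9.TF

open Complex

lemma sin_sq_of_exp {z P Q : ℂ} (hP : P ≠ 0) (hQ : Q ≠ 0) (h : Complex.exp (2 * I * z) = P / Q) :
    Complex.sin z ^ 2 = -(P - Q) ^ 2 / (4 * P * Q) := by
  have h0 : Complex.exp (z * I) ^ 2 = P / Q := by
    rw [← h, ← Complex.exp_nat_mul]
    congr 1
    push_cast
    ring
  have h1 : Complex.exp (-z * I) ^ 2 = Q / P := by
    have : Complex.exp (-z * I) = (Complex.exp (z * I))⁻¹ := by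
      rw [← Complex.exp_neg]; congr 1; ring
    rw [this, inv_pow, h0, inv_div]
  have h2 : Complex.exp (-z * I) * Complex.exp (z * I) = 1 := by
    rw [← Complex.exp_add]; simp
  have e : Complex.sin z ^ 2 = -(Complex.exp (-z * I) ^ 2 - 2 * (Complex.exp (-z * I) *
      Complex.exp (z * I)) + Complex.exp (z * I) ^ 2) / 4 := by
    rw [Complex.sin]
    linear_combination ((Complex.exp (-z * I) - Complex.exp (z * I)) ^ 2 / 4) * Complex.I_sq
  rw [e, h0, h1, h2]
  field_simp
  ring

lemma cos_mul_cos (t y : ℂ) : 2 * (Complex.cos (Real.pi * (t + y)) * Complex.cos (Real.pi * (t - y)))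
    = Complex.cos (2 * Real.pi * t) + Complex.cos (2 * Real.pi * y) := by
  have e1 : 2 * Real.pi * t = Real.pi * (t + y) + Real.pi * (t - y) := by ring
  have e2 : 2 * Real.pi * y = Real.pi * (t + y) - Real.pi * (t - y) := by ring
  rw [e1, e2, Complex.cos_add, Complex.cos_sub]
  ring

lemma one_sub_cos (t : ℂ) : 1 - Complex.cos (2 * Real.pi * t) = 2 * Complex.sin (Real.pi * t) ^ 2 := by
  rw [show 2 * Real.pi * t = 2 * (Real.pi * t) by ring, Complex.cos_two_mul']
  linear_combination (-1) * (Complex.sin_sq_add_cos_sq (Real.pi * t))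

lemma one_add_cos (t : ℂ) : 1 + Complex.cos (2 * Real.pi * t) = 2 * Complex.cos (Real.pi * t) ^ 2 := by
  rw [show 2 * Real.pi * t = 2 * (Real.pi * t) by ring, Complex.cos_two_mul]
  ring

/-- the three squares at a hinge -/
lemma hinge_sq {y t : ℂ} (hy : ‖y‖ < 1 / 200) (ht : ‖t - 1 / 4‖ ≤ 1 / 200)
    (hs : Complex.sin (Real.pi * y) ≠ 0) :
    (Complex.cos (2 * Real.pi * t) + Complex.cos (2 * Real.pi * y) ≠ 0) ∧
    (Complex.sin (ps y t) / Complex.sin (Real.pi * y)) ^ 2 =
      -((1 - Complex.cos (2 * Real.pi * t)) /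
        (Complex.cos (2 * Real.pi * t) + Complex.cos (2 * Real.pi * y))) ∧
    (Complex.sin (ps y t + Real.pi * y) / Complex.sin (Real.pi * y)) ^ 2 =
      (1 + Complex.cos (2 * Real.pi * y)) * Complex.exp (2 * Real.pi * I * t) /
        (Complex.cos (2 * Real.pi * t) + Complex.cos (2 * Real.pi * y)) ∧
    (Complex.sin (ps y t - Real.pi * y) / Complex.sin (Real.pi * y)) ^ 2 =
      (1 + Complex.cos (2 * Real.pi * y)) * Complex.exp (-(2 * Real.pi * I * t)) /
        (Complex.cos (2 * Real.pi * t) + Complex.cos (2 * Real.pi * y)) := by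
  obtain ⟨h1, hp, hm⟩ := exp_ps hy ht
  have hKc := cos_mul_cos t y
  have hne : Complex.cos (2 * Real.pi * t) + Complex.cos (2 * Real.pi * y) ≠ 0 := by
    rw [← hKc]; exact mul_ne_zero two_ne_zero (mul_ne_zero hp hm)
  rw [← hKc] at hne ⊢
  have e2θ : Complex.sin (2 * (Real.pi * y)) = 2 * Complex.sin (Real.pi * y) *
      Complex.cos (Real.pi * y) := Complex.sin_two_mul _
  refine ⟨hne, ?_, ?_, ?_⟩
  · rw [div_pow, sin_sq_of_exp hp hm h1, one_sub_cos]
    have e : Complex.cos (Real.pi * (t + y)) - Complex.cos (Real.pi * (t - y)) =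
        -2 * Complex.sin (Real.pi * t) * Complex.sin (Real.pi * y) := by
      rw [mul_add, mul_sub, Complex.cos_add, Complex.cos_sub]
      ring
    rw [e]
    field_simp
    ring
  · have h2 : Complex.exp (2 * I * (ps y t + Real.pi * y)) =
        (Complex.cos (Real.pi * (t + y)) * Complex.exp (I * (Real.pi * y))) /
          (Complex.cos (Real.pi * (t - y)) * Complex.exp (-(I * (Real.pi * y)))) := by
      rw [mul_add, Complex.exp_add, h1, mul_div_mul_comm, ← Complex.exp_sub]
      congr 2
      ring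
    have hp' := mul_ne_zero hp (Complex.exp_ne_zero (I * (Real.pi * y)))
    have hm' := mul_ne_zero hm (Complex.exp_ne_zero (-(I * (Real.pi * y))))
    rw [div_pow, sin_sq_of_exp hp' hm' h2, one_add_cos]
    have e : (Complex.cos (Real.pi * (t + y)) * Complex.exp (I * (Real.pi * y)) -
        Complex.cos (Real.pi * (t - y)) * Complex.exp (-(I * (Real.pi * y)))) ^ 2 =
        -(Complex.exp (2 * Real.pi * I * t) *
          (2 * Complex.sin (Real.pi * y) * Complex.cos (Real.pi * y)) ^ 2) := by
      have e0 : Complex.cos (Real.pi * (t + y)) * Complex.exp (I * (Real.pi * y)) -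
        Complex.cos (Real.pi * (t - y)) * Complex.exp (-(I * (Real.pi * y))) =
          I * Complex.exp (Real.pi * t * I) * Complex.sin (2 * (Real.pi * y)) := by
        have a1 : Complex.exp (I * (Real.pi * y)) = Complex.exp (Real.pi * y * I) := by
          congr 1; ring
        have a2 : Complex.exp (-(I * (Real.pi * y))) = Complex.exp (-(Real.pi * y) * I) := by
          congr 1; ring
        rw [a1, a2, mul_add, mul_sub, Complex.cos_add, Complex.cos_sub, Complex.exp_mul_I,
          Complex.exp_mul_I, Complex.exp_mul_I, Complex.cos_neg, Complex.sin_neg, e2θ]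
        linear_combination (-2 * Complex.sin (Real.pi * t) * Complex.sin (Real.pi * y) *
          Complex.cos (Real.pi * y)) * Complex.I_sq
      rw [e0, e2θ, mul_pow, mul_pow, Complex.I_sq, ← Complex.exp_nat_mul]
      have : ((2 : ℕ) : ℂ) * (Real.pi * t * I) = 2 * Real.pi * I * t := by push_cast; ring
      rw [this]
      ring
    rw [e]
    have e3 : 4 * (Complex.cos (Real.pi * (t + y)) * Complex.exp (I * (Real.pi * y))) *
        (Complex.cos (Real.pi * (t - y)) * Complex.exp (-(I * (Real.pi * y)))) =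
        4 * (Complex.cos (Real.pi * (t + y)) * Complex.cos (Real.pi * (t - y))) := by
      have : Complex.exp (I * (Real.pi * y)) * Complex.exp (-(I * (Real.pi * y))) = 1 := by
        rw [← Complex.exp_add]; simp
      linear_combination (4 * Complex.cos (Real.pi * (t + y)) * Complex.cos (Real.pi * (t - y))) *
        this
    rw [e3]
    field_simp
    ring
  · have h2 : Complex.exp (2 * I * (ps y t - Real.pi * y)) =
        (Complex.cos (Real.pi * (t + y)) * Complex.exp (-(I * (Real.pi * y)))) /
          (Complex.cos (Real.pi * (t - y)) * Complex.exp (I * (Real.pi * y))) := by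
      rw [mul_sub, Complex.exp_sub, h1, mul_div_mul_comm, ← Complex.exp_sub, div_eq_mul_inv,
        ← Complex.exp_neg]
      congr 2
      ring
    have hp' := mul_ne_zero hp (Complex.exp_ne_zero (-(I * (Real.pi * y))))
    have hm' := mul_ne_zero hm (Complex.exp_ne_zero (I * (Real.pi * y)))
    rw [div_pow, sin_sq_of_exp hp' hm' h2, one_add_cos]
    have e : (Complex.cos (Real.pi * (t + y)) * Complex.exp (-(I * (Real.pi * y))) -
        Complex.cos (Real.pi * (t - y)) * Complex.exp (I * (Real.pi * y))) ^ 2 =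
        -(Complex.exp (-(2 * Real.pi * I * t)) *
          (2 * Complex.sin (Real.pi * y) * Complex.cos (Real.pi * y)) ^ 2) := by
      have e0 : Complex.cos (Real.pi * (t + y)) * Complex.exp (-(I * (Real.pi * y))) -
        Complex.cos (Real.pi * (t - y)) * Complex.exp (I * (Real.pi * y)) =
          -I * Complex.exp (-(Real.pi * t) * I) * Complex.sin (2 * (Real.pi * y)) := by
        have a1 : Complex.exp (I * (Real.pi * y)) = Complex.exp (Real.pi * y * I) := by
          congr 1; ring
        have a2 : Complex.exp (-(I * (Real.pi * y))) = Complex.exp (-(Real.pi * y) * I) := by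
          congr 1; ring
        rw [a1, a2, mul_add, mul_sub, Complex.cos_add, Complex.cos_sub, Complex.exp_mul_I,
          Complex.exp_mul_I, Complex.exp_mul_I, Complex.cos_neg, Complex.sin_neg,
          Complex.cos_neg, Complex.sin_neg, e2θ]
        linear_combination (-2 * Complex.sin (Real.pi * t) * Complex.sin (Real.pi * y) *
          Complex.cos (Real.pi * y)) * Complex.I_sq
      rw [e0, e2θ, mul_pow, mul_pow, neg_sq, Complex.I_sq, ← Complex.exp_nat_mul]
      have : ((2 : ℕ) : ℂ) * (-(Real.pi * t) * I) = -(2 * Real.pi * I * t) := by push_cast; ring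
      rw [this]
      ring
    rw [e]
    have e3 : 4 * (Complex.cos (Real.pi * (t + y)) * Complex.exp (-(I * (Real.pi * y)))) *
        (Complex.cos (Real.pi * (t - y)) * Complex.exp (I * (Real.pi * y))) =
        4 * (Complex.cos (Real.pi * (t + y)) * Complex.cos (Real.pi * (t - y))) := by
      have : Complex.exp (I * (Real.pi * y)) * Complex.exp (-(I * (Real.pi * y))) = 1 := by
        rw [← Complex.exp_add]; simp
      linear_combination (4 * Complex.cos (Real.pi * (t + y)) * Complex.cos (Real.pi * (t - y))) *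
        this
    rw [e3]
    field_simp
    ring

/-- the kernel equation -/
lemma exp_gamt {y t : ℂ} (hy : ‖y‖ < 1 / 200) (ht : ‖t - 1 / 4‖ ≤ 1 / 200) :
    Complex.exp (gamt y t) = (Complex.cos (2 * Real.pi * t) + Complex.cos (2 * Real.pi * y)) /
      (1 - Complex.cos (2 * Real.pi * t)) ∧ 1 - Complex.cos (2 * Real.pi * t) ≠ 0 := by
  have h3 := exp_cc (HS_half ht)
  have e : Complex.cos (Real.pi * (t - 1 / 2)) = Complex.sin (Real.pi * t) := by
    rw [← Complex.cos_sub_pi_div_two]
    congr 1
    ring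
  rw [e] at h3
  have hne : Complex.sin (Real.pi * t) ≠ 0 := by
    intro h0
    rw [h0, mul_zero] at h3
    exact Complex.exp_ne_zero _ h3
  rw [one_sub_cos, ← cos_mul_cos]
  refine ⟨?_, mul_ne_zero two_ne_zero (pow_ne_zero 2 hne)⟩
  unfold gamt
  rw [Complex.exp_sub, Complex.exp_add, exp_cc (HS_add hy ht), exp_cc (HS_sub hy ht)]
  have : Complex.exp (2 * cc (t - 1 / 2)) = (2 * Complex.sin (Real.pi * t)) ^ 2 := by
    rw [← h3, ← Complex.exp_nat_mul]
    push_cast
    rfl
  rw [this]
  field_simp

lemma kern_eq {y z t : ℂ} (hy : ‖y‖ < 1 / 200) (hz : ‖z‖ < 1 / 200) (ht : ‖t - 1 / 4‖ ≤ 1 / 200)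
    (h : gamt y t + gamt z t = 0) :
    (Complex.cos (2 * Real.pi * t) + Complex.cos (2 * Real.pi * y)) *
      (Complex.cos (2 * Real.pi * t) + Complex.cos (2 * Real.pi * z)) =
      (1 - Complex.cos (2 * Real.pi * t)) ^ 2 := by
  have h1 := congrArg Complex.exp h
  obtain ⟨e1, h0⟩ := exp_gamt hy ht
  obtain ⟨e2, -⟩ := exp_gamt hz ht
  rw [Complex.exp_add, e1, e2, Complex.exp_zero, div_mul_div_comm, div_eq_one_iff_eq
    (mul_ne_zero h0 h0)] at h1
  rw [h1]
  ring

end Pool.Agent.Helper9.TF
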