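import Pool.Agent.Helper9.TF.GFDefs
import Mathlib

/-!
# Layers and regions
-/

set_option autoImplicit false

namespace Pool.Agent.Helper96.TF

open Finset
open Pool.Agent.Helper9.TF (hinges crossings)

/-- the start of the region `r` -/
def st (a : ℕ → ℕ) (r : ℕ) : ℕ := ∑ k ∈ range r, a k

/-- the region of the layer `i` -/
def rg (n : ℕ) (a : ℕ → ℕ) (i : ℕ) : ℕ := Nat.findGreatest (fun r => st a r < i) (n - 1)

lemma st_succ (a : ℕ → ℕ) (r : ℕ) : st a (r + 1) = st a r + a r := by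
  unfold st; rw [sum_range_succ]

lemma st_zero (a : ℕ → ℕ) : st a 0 = 0 := by unfold st; simp

lemma st_crossings (n : ℕ) (a : ℕ → ℕ) : st a n = crossings n a := rfl

lemma st_mono (a : ℕ → ℕ) {r s : ℕ} (h : r ≤ s) : st a r ≤ st a s := by
  unfold st
  exact sum_le_sum_of_subset (range_mono h)

lemma rg_eq {n : ℕ} {a : ℕ → ℕ} {r k : ℕ} (hr : r < n) (h1 : 1 ≤ k) (h2 : k ≤ a r) :
    rg n a (st a r + k) = r := by
  unfold rg
  rw [Nat.findGreatest_eq_iff]
  refine ⟨by omega, fun _ => by omega, fun m hm hm2 => ?_⟩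
  have h3 := st_mono a (show r + 1 ≤ m from hm)
  rw [st_succ] at h3
  omega

lemma exists_rk {n : ℕ} {a : ℕ → ℕ} {i : ℕ} (hn : 0 < n) (h1 : 1 ≤ i) (h2 : i ≤ crossings n a) :
    ∃ r k, r < n ∧ 1 ≤ k ∧ k ≤ a r ∧ i = st a r + k := by
  induction n with
  | zero => omega
  | succ m ih =>
    by_cases h : i ≤ st a m
    · rcases Nat.eq_zero_or_pos m with rfl | hm
      · rw [st_zero] at h; omega
      · obtain ⟨r, k, h3, h4, h5, h6⟩ := ih hm h
        exact ⟨r, k, by omega, h4, h5, h6⟩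
    · refine ⟨m, i - st a m, by omega, by omega, ?_, by omega⟩
      rw [← st_crossings, st_succ] at h2
      omega

lemma mem_hinges {n : ℕ} {a : ℕ → ℕ} {r k : ℕ} (ha : ∀ i, i < n → 1 ≤ a i) (hr : r < n)
    (h1 : 1 ≤ k) (h2 : k ≤ a r) : st a r + k ∈ hinges n a ↔ k = a r ∧ r + 1 < n := by
  unfold hinges
  rw [mem_image]
  constructor
  · rintro ⟨j, hj, he⟩
    rw [mem_range] at hj
    have hj1 : st a (j + 1) = st a r + k := he
    rw [st_succ] at hj1
    have e1 : rg n a (st a r + k) = r := rg_eq hr h1 h2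
    have e2 : rg n a (st a j + a j) = j := rg_eq (by omega) (ha j (by omega)) le_rfl
    rw [hj1, e1] at e2
    subst e2
    exact ⟨by omega, by omega⟩
  · rintro ⟨rfl, h3⟩
    refine ⟨r, mem_range.2 (by omega), ?_⟩
    show st a (r + 1) = st a r + a r
    rw [st_succ]

lemma sum_layers {M : Type*} [AddCommMonoid M] (n : ℕ) (a : ℕ → ℕ) (f : ℕ → M) :
    ∑ i ∈ Ico 1 (st a n + 1), f i = ∑ r ∈ range n, ∑ k ∈ Ico 1 (a r + 1), f (st a r + k) := by
  induction n with
  | zero => simp [st_zero]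
  | succ m ih =>
    rw [sum_range_succ, ← ih, st_succ]
    rw [← sum_Ico_consecutive f (show 1 ≤ st a m + 1 by omega)
      (show st a m + 1 ≤ st a m + a m + 1 by omega)]
    congr 1
    rw [sum_Ico_eq_sum_range, sum_Ico_eq_sum_range]
    apply sum_congr (by congr 1; omega)
    intro x _
    congr 1
    omega

end Pool.Agent.Helper96.TF
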