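import Pool.Agent.Helper96.TF.Base

/-!
# Positivity of the shapes: the basic inequalities
-/

set_option autoImplicit false

namespace Pool.Agent.Helper96.TF

open Complex

lemma im_sq_div {p s : ℂ} (hs : s ≠ 0) (h1 : 0 < (p * (starRingEnd ℂ) s).re)
    (h2 : 0 < (p * (starRingEnd ℂ) s).im) : 0 < ((p / s) ^ 2).im := by
  have hN : 0 < Complex.normSq s := Complex.normSq_pos.2 hs
  have e : p / s = ((Complex.normSq s)⁻¹ : ℝ) * (p * (starRingEnd ℂ) s) := by
    rw [Complex.ofReal_inv, ← Complex.mul_conj]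
    have hc : (starRingEnd ℂ) s ≠ 0 := (map_ne_zero _).2 hs
    field_simp
  have hi : 0 < (Complex.normSq s)⁻¹ := inv_pos.2 hN
  rw [e, mul_pow, sq (p * (starRingEnd ℂ) s), ← Complex.ofReal_pow, Complex.im_ofReal_mul,
    Complex.mul_im]
  have := mul_pos h1 h2
  have h3 : 0 < (Complex.normSq s)⁻¹ ^ 2 := by positivity
  nlinarith

lemma sin_re' (z : ℂ) : (Complex.sin z).re = Real.sin z.re * Real.cosh z.im := by
  rw [Complex.sin_eq, ← Complex.ofReal_cos, ← Complex.ofReal_cosh, ← Complex.ofReal_sin,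
    ← Complex.ofReal_sinh]
  simp only [Complex.add_re, Complex.mul_re, Complex.ofReal_re, Complex.ofReal_im,
    Complex.I_re, Complex.I_im, Complex.mul_im]
  ring

lemma sin_im' (z : ℂ) : (Complex.sin z).im = Real.cos z.re * Real.sinh z.im := by
  rw [Complex.sin_eq, ← Complex.ofReal_cos, ← Complex.ofReal_cosh, ← Complex.ofReal_sin,
    ← Complex.ofReal_sinh]
  simp only [Complex.add_im, Complex.mul_re, Complex.ofReal_re, Complex.ofReal_im,
    Complex.I_re, Complex.I_im, Complex.mul_im]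
  ring

lemma mul_cos_le_sin {x : ℝ} (h0 : 0 ≤ x) (h1 : x ≤ Real.pi / 2) : x * Real.cos x ≤ Real.sin x := by
  rcases eq_or_lt_of_le h0 with rfl | h0
  · simp
  rcases eq_or_lt_of_le h1 with rfl | h1
  · simp
  have h2 := Real.lt_tan h0 h1
  have h3 : 0 < Real.cos x := Real.cos_pos_of_mem_Ioo ⟨by linarith, h1⟩
  rw [Real.tan_eq_sin_div_cos, lt_div_iff₀ h3] at h2
  exact h2.le

lemma sinh_le_mul_cosh {x : ℝ} (h0 : 0 ≤ x) : Real.sinh x ≤ x * Real.cosh x := by
  have hd : ∀ u : ℝ, HasDerivAt (fun u => u * Real.cosh u - Real.sinh u) (u * Real.sinh u) u := by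
    intro u
    have := ((hasDerivAt_id u).mul (Real.hasDerivAt_cosh u)).sub (Real.hasDerivAt_sinh u)
    refine this.congr_deriv ?_
    simp
  have hm : MonotoneOn (fun u => u * Real.cosh u - Real.sinh u) (Set.Ici 0) := by
    apply monotoneOn_of_deriv_nonneg (convex_Ici 0)
    · exact fun u _ => (hd u).continuousAt.continuousWithinAt
    · exact fun u _ => (hd u).differentiableAt.differentiableWithinAt
    · intro u hu
      rw [interior_Ici, Set.mem_Ioi] at hu
      rw [(hd u).deriv]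
      exact mul_nonneg hu.le (Real.sinh_nonneg_iff.2 hu.le)
  have := hm (Set.mem_Ici.2 le_rfl) (Set.mem_Ici.2 h0) h0
  simp at this
  linarith

/-- `sin (k x) cos x - k sin x cos (k x)` -/
noncomputable def FF (x : ℝ) (k : ℕ) : ℝ :=
  Real.sin (k * x) * Real.cos x - k * (Real.sin x * Real.cos (k * x))

lemma FF_succ (x : ℝ) (k : ℕ) :
    FF x (k + 1) = Real.cos x * FF x k + (k + 1) * (Real.sin x ^ 2 * Real.sin (k * x)) := by
  unfold FF
  push_cast
  rw [add_mul, one_mul, Real.sin_add, Real.cos_add]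
  ring

lemma FF_nonneg {x : ℝ} (hx : 0 < x) (hc : 0 ≤ Real.cos x) :
    ∀ k : ℕ, 1 ≤ k → k * x < Real.pi → 0 ≤ FF x k := by
  intro k hk
  induction k, hk using Nat.le_induction with
  | base => intro _; unfold FF; simp
  | succ k hk ih =>
    intro h
    rw [FF_succ]
    push_cast at h
    have hk' : (1 : ℝ) ≤ k := by exact_mod_cast hk
    have h1 : k * x < Real.pi := by nlinarith
    have h2 : 0 < Real.sin (k * x) := Real.sin_pos_of_pos_of_lt_pi (by positivity) h1
    have := ih h1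
    positivity

lemma FF_pos {x : ℝ} (hx : 0 < x) (hc : 0 ≤ Real.cos x) {k : ℕ} (hk : 2 ≤ k)
    (h : k * x < Real.pi) : 0 < FF x k := by
  obtain ⟨m, rfl⟩ : ∃ m, k = m + 1 := ⟨k - 1, by omega⟩
  have hm : (1 : ℝ) ≤ m := by exact_mod_cast (show 1 ≤ m by omega)
  rw [FF_succ]
  push_cast at h
  have h1 : m * x < Real.pi := by nlinarith
  have h2 : 0 < Real.sin (m * x) := Real.sin_pos_of_pos_of_lt_pi (by positivity) h1
  have h3 := FF_nonneg hx hc m (by omega) h1
  have h4 : 0 < Real.sin x := Real.sin_pos_of_pos_of_lt_pi hx (by nlinarith)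
  positivity

/-- `k sinh e cosh (k e) - sinh (k e) cosh e` -/
noncomputable def HF (e : ℝ) (k : ℕ) : ℝ :=
  k * (Real.sinh e * Real.cosh (k * e)) - Real.sinh (k * e) * Real.cosh e

lemma HF_nonneg {e : ℝ} (he : 0 ≤ e) : ∀ k : ℕ, 1 ≤ k → 0 ≤ HF e k := by
  intro k hk
  induction k, hk using Nat.le_induction with
  | base => unfold HF; simp
  | succ k hk ih =>
    have e1 : HF e (k + 1) = Real.cosh e * HF e k + (k + 1) * (Real.sinh e ^ 2 *
        Real.sinh (k * e)) := by
      unfold HF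
      push_cast
      rw [show ((k : ℝ) + 1) * e = k * e + e by ring, Real.sinh_add, Real.cosh_add]
      ring
    rw [e1]
    have h1 : 0 ≤ Real.sinh (k * e) := Real.sinh_nonneg_iff.2 (by positivity)
    have h2 := Real.cosh_pos e
    positivity

/-- the outer end -/
lemma pos_outer {θ : ℂ} (h1 : 0 < θ.re) (h2 : θ.im < 0) {k : ℕ} (hk : 2 ≤ k)
    (hkx : k * θ.re ≤ Real.pi / 2) : 0 < ((Complex.sin (k * θ) / Complex.sin θ) ^ 2).im := by
  have hpi := Real.pi_pos
  have hk' : (2 : ℝ) ≤ k := by exact_mod_cast hk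
  have hx : θ.re ≤ Real.pi / 4 := by nlinarith
  obtain ⟨e, he⟩ : ∃ e : ℝ, e = -θ.im := ⟨_, rfl⟩
  have he0 : 0 < e := by rw [he]; linarith
  have hcx : 0 < Real.cos θ.re := Real.cos_pos_of_mem_Ioo ⟨by linarith, by linarith⟩
  have hsx : 0 < Real.sin θ.re := Real.sin_pos_of_pos_of_lt_pi h1 (by linarith)
  have hskx : 0 < Real.sin (k * θ.re) :=
    Real.sin_pos_of_pos_of_lt_pi (by positivity) (by linarith)
  have hckx : 0 ≤ Real.cos (k * θ.re) := Real.cos_nonneg_of_mem_Icc
    ⟨by nlinarith, hkx⟩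
  have hF := FF_pos h1 hcx.le hk (by linarith)
  have hH := HF_nonneg he0.le k (by omega)
  unfold FF at hF
  unfold HF at hH
  have c1 := Real.cosh_pos e
  have c2 := Real.cosh_pos (k * e)
  have s1 : 0 < Real.sinh e := Real.sinh_pos_iff.2 he0
  have s2 : 0 < Real.sinh (k * e) := Real.sinh_pos_iff.2 (by positivity)
  have a1 : (Complex.sin θ).re = Real.sin θ.re * Real.cosh e := by
    rw [sin_re', show θ.im = -e by rw [he]; ring, Real.cosh_neg]
  have a2 : (Complex.sin θ).im = -(Real.cos θ.re * Real.sinh e) := by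
    rw [sin_im', show θ.im = -e by rw [he]; ring, Real.sinh_neg]; ring
  have r1 : ((k : ℂ) * θ).re = k * θ.re := by simp
  have r2 : ((k : ℂ) * θ).im = -(k * e) := by rw [he]; simp
  have b1 : (Complex.sin (k * θ)).re = Real.sin (k * θ.re) * Real.cosh (k * e) := by
    rw [sin_re', r1, r2, Real.cosh_neg]
  have b2 : (Complex.sin (k * θ)).im = -(Real.cos (k * θ.re) * Real.sinh (k * e)) := by
    rw [sin_im', r1, r2, Real.sinh_neg]; ring
  have hs : Complex.sin θ ≠ 0 := by
    intro h0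
    have := congrArg Complex.re h0
    rw [a1, Complex.zero_re] at this
    exact (mul_pos hsx c1).ne' this
  apply im_sq_div hs
  · rw [Complex.mul_re, Complex.conj_re, Complex.conj_im, a1, a2, b1, b2]
    have p1 := mul_pos (mul_pos hskx c2) (mul_pos hsx c1)
    have p2 := mul_nonneg (mul_nonneg hckx s2.le) (mul_pos hcx s1).le
    linarith
  · rw [Complex.mul_im, Complex.conj_re, Complex.conj_im, a1, a2, b1, b2]
    have p1 := mul_pos hF (mul_pos c2 s1)
    have p2 := mul_nonneg hH (mul_nonneg hckx hsx.le)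
    nlinarith [p1, p2]

/-- the hinge end, first case -/
lemma pos_hinge1 {θ φ : ℂ} (h1 : 0 < θ.re) (h1' : θ.re < Real.pi / 2) (h2 : θ.im < 0)
    (h3 : 0 < φ.re) (h4 : φ.re ≤ Real.pi / 2) (h5 : 0 ≤ φ.im)
    (h6 : φ.im * -θ.im < φ.re * θ.re) : 0 < ((Complex.sin φ / Complex.sin θ) ^ 2).im := by
  have hpi := Real.pi_pos
  obtain ⟨e, he⟩ : ∃ e : ℝ, e = -θ.im := ⟨_, rfl⟩
  rw [← he] at h6
  have he0 : 0 < e := by rw [he]; linarith
  have hcx : 0 < Real.cos θ.re := Real.cos_pos_of_mem_Ioo ⟨by linarith, by linarith⟩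
  have hsx : 0 < Real.sin θ.re := Real.sin_pos_of_pos_of_lt_pi h1 (by linarith)
  have hsp : 0 < Real.sin φ.re := Real.sin_pos_of_pos_of_lt_pi h3 (by linarith)
  have hcp : 0 ≤ Real.cos φ.re := Real.cos_nonneg_of_mem_Icc ⟨by linarith, h4⟩
  have c1 := Real.cosh_pos e
  have c2 := Real.cosh_pos φ.im
  have s1 : 0 < Real.sinh e := Real.sinh_pos_iff.2 he0
  have s2 : 0 ≤ Real.sinh φ.im := Real.sinh_nonneg_iff.2 h5
  have a1 : (Complex.sin θ).re = Real.sin θ.re * Real.cosh e := by
    rw [sin_re', show θ.im = -e by rw [he]; ring, Real.cosh_neg]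
  have a2 : (Complex.sin θ).im = -(Real.cos θ.re * Real.sinh e) := by
    rw [sin_im', show θ.im = -e by rw [he]; ring, Real.sinh_neg]; ring
  have b1 := sin_re' φ
  have b2 := sin_im' φ
  have hs : Complex.sin θ ≠ 0 := by
    intro h0
    have := congrArg Complex.re h0
    rw [a1, Complex.zero_re] at this
    exact (mul_pos hsx c1).ne' this
  apply im_sq_div hs
  · rw [Complex.mul_re, Complex.conj_re, Complex.conj_im, a1, a2, b1, b2]
    have q1 := mul_cos_le_sin h3.le h4
    have q2 := mul_cos_le_sin h1.le h1'.le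
    have q3 := sinh_le_mul_cosh h5
    have q4 := sinh_le_mul_cosh he0.le
    have t1 : Real.cos φ.re * Real.sinh φ.im * (Real.cos θ.re * Real.sinh e) ≤
        Real.cos φ.re * (φ.im * Real.cosh φ.im) * (Real.cos θ.re * (e * Real.cosh e)) := by
      gcongr
    have t2 : Real.cos φ.re * (φ.im * Real.cosh φ.im) * (Real.cos θ.re * (e * Real.cosh e)) =
        (φ.im * e) * (Real.cos φ.re * Real.cos θ.re * Real.cosh φ.im * Real.cosh e) := by ring
    have t3 : (φ.re * Real.cos φ.re) * Real.cosh φ.im * ((θ.re * Real.cos θ.re) * Real.cosh e) ≤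
        Real.sin φ.re * Real.cosh φ.im * (Real.sin θ.re * Real.cosh e) := by
      gcongr
    rcases eq_or_lt_of_le hcp with hz | hz
    · rw [← hz]
      have := mul_pos (mul_pos hsp c2) (mul_pos hsx c1)
      linarith
    · have t4 : 0 < (φ.re * θ.re - φ.im * e) * (Real.cos φ.re * Real.cos θ.re *
          Real.cosh φ.im * Real.cosh e) := by
        apply mul_pos (by linarith)
        positivity
      nlinarith
  · rw [Complex.mul_im, Complex.conj_re, Complex.conj_im, a1, a2, b1, b2]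
    have p1 := mul_pos (mul_pos hsp c2) (mul_pos hcx s1)
    have p2 := mul_nonneg (mul_nonneg hcp s2) (mul_pos hsx c1).le
    linarith

/-- the hinge end, second case -/
lemma pos_hinge2 {θ φ : ℂ} (h1 : 0 < θ.re) (h1' : θ.re ≤ 1 / 100) (h2 : θ.im < 0)
    (h2' : -θ.im ≤ 1 / 100) (h3 : Real.pi / 4 ≤ φ.re) (h4 : φ.re ≤ Real.pi / 2) (h5 : φ.im < 0)
    (h6 : -φ.im * θ.re * (101 / 100) < 99 / 100 * -θ.im) :
    0 < ((Complex.sin φ / Complex.sin θ) ^ 2).im := by
  have hpi := Real.pi_gt_three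
  obtain ⟨e, he⟩ : ∃ e : ℝ, e = -θ.im := ⟨_, rfl⟩
  obtain ⟨b, hb⟩ : ∃ b : ℝ, b = -φ.im := ⟨_, rfl⟩
  rw [← he, ← hb] at h6
  rw [← he] at h2'
  have he0 : 0 < e := by rw [he]; linarith
  have hb0 : 0 < b := by rw [hb]; linarith
  have hcx : 0 < Real.cos θ.re := Real.cos_pos_of_mem_Ioo ⟨by linarith, by linarith⟩
  have hsx : 0 < Real.sin θ.re := Real.sin_pos_of_pos_of_lt_pi h1 (by linarith)
  have hsp : 0 < Real.sin φ.re := Real.sin_pos_of_pos_of_lt_pi (by linarith) (by linarith)
  have hcp : 0 ≤ Real.cos φ.re := Real.cos_nonneg_of_mem_Icc ⟨by linarith, h4⟩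
  have hcs : Real.cos φ.re ≤ Real.sin φ.re := by
    rw [← Real.sin_pi_div_two_sub]
    apply Real.sin_le_sin_of_le_of_le_pi_div_two <;> linarith
  have c1 := Real.cosh_pos e
  have c2 := Real.cosh_pos b
  have s1 : 0 < Real.sinh e := Real.sinh_pos_iff.2 he0
  have s2 : 0 < Real.sinh b := Real.sinh_pos_iff.2 hb0
  have a1 : (Complex.sin θ).re = Real.sin θ.re * Real.cosh e := by
    rw [sin_re', show θ.im = -e by rw [he]; ring, Real.cosh_neg]
  have a2 : (Complex.sin θ).im = -(Real.cos θ.re * Real.sinh e) := by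
    rw [sin_im', show θ.im = -e by rw [he]; ring, Real.sinh_neg]; ring
  have b1 : (Complex.sin φ).re = Real.sin φ.re * Real.cosh b := by
    rw [sin_re', show φ.im = -b by rw [hb]; ring, Real.cosh_neg]
  have b2 : (Complex.sin φ).im = -(Real.cos φ.re * Real.sinh b) := by
    rw [sin_im', show φ.im = -b by rw [hb]; ring, Real.sinh_neg]; ring
  have hs : Complex.sin θ ≠ 0 := by
    intro h0
    have := congrArg Complex.re h0
    rw [a1, Complex.zero_re] at this
    exact (mul_pos hsx c1).ne' this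
  apply im_sq_div hs
  · rw [Complex.mul_re, Complex.conj_re, Complex.conj_im, a1, a2, b1, b2]
    have p1 := mul_pos (mul_pos hsp c2) (mul_pos hsx c1)
    have p2 := mul_nonneg (mul_nonneg hcp s2.le) (mul_pos hcx s1).le
    linarith
  · rw [Complex.mul_im, Complex.conj_re, Complex.conj_im, a1, a2, b1, b2]
    have q1 : Real.sinh b ≤ b * Real.cosh b := sinh_le_mul_cosh hb0.le
    have q2 : Real.sin θ.re ≤ θ.re := Real.sin_le h1.le
    have q3 : e ≤ Real.sinh e := Real.self_le_sinh_iff.2 he0.le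
    have q4 : 99 / 100 ≤ Real.cos θ.re := by
      have := Real.one_sub_sq_div_two_le_cos (x := θ.re)
      nlinarith
    have q5 : Real.cosh e ≤ 101 / 100 := by
      have h7 := Real.cosh_le_exp_half_sq e
      have h8 : Real.exp (e ^ 2 / 2) ≤ 101 / 100 := by
        have h9 : e ^ 2 / 2 ≤ 1 / 1000 := by nlinarith
        have h10 := Real.exp_bound_div_one_sub_of_interval (x := e ^ 2 / 2) (by positivity)
          (by linarith)
        refine h10.trans ?_
        rw [div_le_iff₀ (by linarith)]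
        linarith
      linarith
    have t1 : Real.cos φ.re * Real.sinh b * (Real.sin θ.re * Real.cosh e) ≤
        Real.sin φ.re * (b * Real.cosh b) * (θ.re * (101 / 100)) := by
      gcongr
    have t2 : Real.sin φ.re * Real.cosh b * (99 / 100 * e) ≤
        Real.sin φ.re * Real.cosh b * (Real.cos θ.re * Real.sinh e) := by
      gcongr
    have t3 : 0 < (Real.sin φ.re * Real.cosh b) * (99 / 100 * e - b * θ.re * (101 / 100)) := by
      apply mul_pos (mul_pos hsp c2)
      linarith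
    nlinarith

end Pool.Agent.Helper96.TF
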