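import Mathlib
import Pool.Agent.Helper96.TF.EDefs

/-!
# The shapes of the layers given by the critical point

Only definitions.  In the twist region `r` the site variable is `y r` for even `r` and its
complex conjugate for odd `r`; same convention for the kernel variables `t (r - 1)`, `t r` at the
two ends of the region.
-/

namespace Pool.Agent.Helper9.TF

open Complex

/-- conjugation in the odd regions -/
noncomputable def cj (r : ℕ) (z : ℂ) : ℂ := if Even r then z else (starRingEnd ℂ) z

/-- the phase at a hinge -/
noncomputable def ps (η τ : ℂ) : ℂ := -(I / 2) * gamy η τ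

/-- the phase at the `k`-th layer of the region `r` -/
noncomputable def ph (y t : ℕ → ℂ) (r k : ℕ) : ℂ :=
  (if r = 0 then 0 else ps (cj r (y r)) (cj r (t (r - 1)))) + k * (Real.pi * cj r (y r))

/-- the shape of the `k`-th layer of the region `r` -/
noncomputable def US (y t : ℕ → ℂ) (r k : ℕ) : ℂ :=
  (Complex.sin (ph y t r k) / Complex.sin (Real.pi * cj r (y r))) ^ 2

end Pool.Agent.Helper9.TF
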